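import Pool.Agent.P.MP_485d6e_al.U.Val

/-! The power semiring is finitely based if the machine halts. -/

set_option autoImplicit false

namespace Pool.Agent.P.MP_485d6e_al.U

variable {P : Par} {S : Type} [Semigroup S]

variable (P S) in
/-- validity in the power semiring of `S` is validity for normal forms -/
def Pres : Prop :=
  ∀ (w : List ℕ) (t : Set (List ℕ)), w ≠ [] → (∀ u ∈ t, u ≠ []) → (Valid S w t ↔ ValidL P w t)

theorem closed_small {n N : ℕ} {T : Set (List ℕ)} (hT : Closed S n T) (hn : N + N * N ≤ n)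
    (w : List ℕ) (L : List (List ℕ)) (h1 : w ≠ []) (h2 : ∀ u ∈ L, u ≠ []) (h3 : L ≠ [])
    (h4 : w.length ≤ N) (h5 : L.length ≤ N) (h6 : ∀ u ∈ L, u.length ≤ N)
    (hv : Valid S w {u | u ∈ L}) (σ : ℕ → List ℕ) (hσ : ∀ x, σ x ≠ [])
    (h7 : ∀ u ∈ L, u.flatMap σ ∈ T) : w.flatMap σ ∈ T := by
  set A := w ++ L.flatten with hA
  have hlen : A.length ≤ n := by
    have := List.sum_le_card_nsmul (L.map List.length) N (by
      intro x hx
      obtain ⟨u, hu, rfl⟩ := List.mem_map.mp hx
      exact h6 u hu)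
    rw [List.length_map, smul_eq_mul] at this
    have := Nat.mul_le_mul_right N h5
    rw [hA, List.length_append, List.length_flatten]
    omega
  have e : ∀ u : List ℕ, (∀ x ∈ u, x ∈ A) →
      (u.map fun x => A.idxOf x).flatMap (fun i => σ (A.getD i 0)) = u.flatMap σ := by
    intro u hu
    rw [List.flatMap_map]
    refine List.flatMap_congr fun x hx => ?_
    rw [List.getD_eq_getElem _ _ (List.idxOf_lt_length_of_mem (hu x hx)), List.getElem_idxOf]
  have mw : ∀ x ∈ w, x ∈ A := fun x hx => List.mem_append_left _ hx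
  have mL : ∀ u ∈ L, ∀ x ∈ u, x ∈ A := fun u hu x hx =>
    List.mem_append_right _ (List.mem_flatten.mpr ⟨u, hu, hx⟩)
  have sm : ∀ u : List ℕ, u.length ≤ N → (∀ x ∈ u, x ∈ A) →
      (u.map fun x => A.idxOf x).length ≤ n ∧ ∀ x ∈ u.map fun x => A.idxOf x, x < n := by
    intro u a b
    refine ⟨by rw [List.length_map]; omega, fun x hx => ?_⟩
    obtain ⟨y, hy, rfl⟩ := List.mem_map.mp hx
    exact (List.idxOf_lt_length_of_mem (b y hy)).trans_le hlen
  rw [← e w mw]
  refine hT _ (L.map (List.map fun x => A.idxOf x)) (by simpa using h1) (by simpa using h2)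
    (by simpa using h3) ⟨sm w h4 mw, by rw [List.length_map]; omega, fun u hu => ?_⟩ ?_ _
    (fun _ => hσ _) fun u hu => ?_
  · obtain ⟨u, hu', rfl⟩ := List.mem_map.mp hu
    exact sm u (h6 u hu') (mL u hu')
  · have := hv.inst (fun x => {[A.idxOf x]}) (fun _ => by simp) (by simp) [] []
      (w.map fun x => A.idxOf x) (by rw [Sub_singleton, List.map_eq_flatMap]; rfl)
    rw [List.nil_append, List.append_nil] at this
    refine this.mono ?_
    rintro _ ⟨u, hu, v', hv', rfl⟩
    rw [Sub_singleton] at hv'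
    rw [show v' = _ from hv', List.nil_append, List.append_nil, ← List.map_eq_flatMap]
    exact List.mem_map.mpr ⟨u, hu, rfl⟩
  · obtain ⟨u, hu', rfl⟩ := List.mem_map.mp hu
    rw [e u (mL u hu')]
    exact h7 u hu'

theorem cut (c : ℕ) (u : List ℕ) (h : c < u.length) : ∃ (u₀ : List ℕ) (σ : ℕ → List ℕ),
    u₀.length = c + 1 ∧ (∀ x, σ x ≠ []) ∧ u₀.flatMap σ = u ∧ σ 0 = [0] := by
  refine ⟨u.take c ++ [u.sum + 1], fun x => if x = u.sum + 1 then u.drop c else [x],
    by simp; omega, fun x => ?_, ?_, by simp⟩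
  · beta_reduce
    split_ifs
    · simpa using h
    · simp
  · rw [List.flatMap_append, List.flatMap_congr (g := fun x => [x]) fun x hx => by
      have := List.single_le_sum (l := u) (by simp) x (List.mem_of_mem_take hx)
      rw [if_neg (by omega)]]
    simp

theorem fb_of_halt (hP : WF P) (hS : Pres P S) {c : ℕ → ℕ} (hh : Reach P.tr P.h c) :
    FinitelyBased (Pow.add (S := S)) Pow.mul := by
  obtain ⟨m, hm⟩ := no_long_walk hh
  obtain ⟨N, n1, n2, n3⟩ : ∃ N, P.Q + 3 * P.d + 20 ≤ N ∧ P.k + 2 ≤ N ∧ 2 * m + 10 ≤ N :=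
    ⟨P.Q + 3 * P.d + 20 + P.k + 2 * m, by omega, by omega, by omega⟩
  refine fb_of S (N + 1 + (N + 1) * (N + 1)) fun w t hw ht _ _ hv T hT _ hsub => ?_
  have hvL := (hS w t hw ht).mp hv
  have small : ∀ (w : List ℕ) (L : List (List ℕ)), w ≠ [] → (∀ u ∈ L, u ≠ []) → L ≠ [] →
      w.length ≤ N + 1 → L.length ≤ N + 1 → (∀ u ∈ L, u.length ≤ N + 1) →
      ValidL P w {u | u ∈ L} → ∀ σ : ℕ → List ℕ, (∀ x, σ x ≠ []) → (∀ u ∈ L, u.flatMap σ ∈ T) →
      w.flatMap σ ∈ T := fun w L a b c d e f g =>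
    closed_small hT le_rfl w L a b c d e f ((hS _ _ a b).mpr g)
  have hz : ∀ σ : ℕ → List ℕ, σ 0 = [0] →
      (List.replicate (P.k + 2) 0).flatMap σ = List.replicate (P.k + 2) 0 := fun σ h => by
    rw [List.flatMap_congr (g := fun x => [x]) fun x hx => by rw [List.eq_of_mem_replicate hx, h]]
    simp
  have lz : ∀ u ∈ T, P.k + 1 < u.length → List.replicate (P.k + 2) 0 ∈ T := by
    intro u hu h
    obtain ⟨u₀, σ, a, b, c, d⟩ := cut (P.k + 1) u h
    rw [← hz σ d]
    exact small _ [u₀] (by simp) (by simpa using List.ne_nil_of_length_eq_add_one a) (by simp)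
      (by simp; omega) (by simp) (by simp; omega)
      (validL_long (by simp) List.mem_cons_self (by omega)) σ b (by simpa [c] using hu)
  rcases lt_trichotomy w.length (P.k + 1) with h | h | h
  · exact hsub (hvL.short hw (by omega))
  swap
  · obtain ⟨u, hu, h1⟩ := hvL.long ht h
    obtain ⟨u₀, σ, a, b, c, d⟩ := cut (P.k + 1) w h
    rw [← c]
    exact small _ [List.replicate (P.k + 2) 0] (List.ne_nil_of_length_eq_add_one a) (by simp)
      (by simp) (by omega) (by simp) (by simp; omega)
      (validL_long (by omega) List.mem_cons_self (by simp)) σ b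
      (by simpa only [List.mem_singleton, forall_eq, hz σ d] using lz u (hsub hu) h1)
  obtain ⟨p, y, rfl⟩ := exists_wd h
  by_contra hn
  have hp := hsub (hvL.rigid hP fun h => hn (hsub h))
  have hl : ∀ u ∈ T, ¬ P.k + 1 < u.length := by
    intro u hu h
    have := small (wd P p y) [wd P p fun _ => p, List.replicate (P.k + 2) 0] hw (by simp [wd_ne])
      (by simp) (by rw [wd_length]; omega) (by simp; omega) (by simp [wd_length]; omega)
      (validL_support hP List.mem_cons_self fun τ h1 h2 v _ hc => by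
        obtain ⟨v', hv'⟩ := sub_nonempty h1 (List.replicate (P.k + 2) 0)
        refine absurd (nf_nil (.inr (.inl ?_))) (hc _ (by simp) v' hv')
        have := sub_len h2 hv'
        rw [List.length_replicate] at this
        omega) (fun x => [x]) (by simp) (by simpa using ⟨hp, lz u hu h⟩)
    exact hn (by simpa using this)
  have X : Ctx P (fun f => IsFr P f ∧ NoWalk f) p N fun y => wd P p y ∈ T := by
    refine ⟨hP, fun f h => h.1, fun L y' a b c => ?_, n1⟩
    have := small (wd P p y') ((wd P p fun _ => p) :: L.map (wd P p)) (wd_ne _ _) (by simp [wd_ne])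
      (by simp) (by rw [wd_length]; omega) (by simpa using a)
      (by simp only [List.mem_cons, List.mem_map]
          rintro _ (rfl | ⟨_, -, rfl⟩) <;> rw [wd_length] <;> omega)
      (validL_sound hP List.mem_cons_self fun f h1 h2 ψ h3 h4 => c f ⟨h1, h2⟩ ψ h3 fun u hu =>
        h4 u (List.mem_cons_of_mem _ (List.mem_map.mpr ⟨u, hu, rfl⟩))) (fun x => [x]) (by simp)
      (by simpa using ⟨hp, b⟩)
    simpa using this
  obtain ⟨μ, ψ, a1, a2, a3, a4, a5⟩ := X.complete (fun x₀ hx a b ha hab hb => by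
    obtain ⟨n, v, rfl, rfl, hv⟩ := exists_walk hab
    by_cases hn : m ≤ n
    · exact hm _ (X.tf_isFr hx) n hn v ha hv hb
    refine hx (X.cdead (X.left (X.symm ha.1)) ((2, fun _ => v 0) :: (3, fun _ => v n) ::
      (List.range n).map fun i => (1, cns (v i) fun _ => v (i + 1))) (by simp; omega)
      (fun t ht => ?_) fun f hf g k => ?_)
    · rcases List.mem_cons.mp ht with rfl | ht
      · exact ⟨by simp, ha.2, ha.1⟩
      rcases List.mem_cons.mp ht with rfl | ht
      · exact ⟨by simp, hb.2, hb.1⟩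
      · obtain ⟨i, hi, rfl⟩ := List.mem_map.mp ht
        exact ⟨by simp, (hv i (List.mem_range.mp hi)).2, (hv i (List.mem_range.mp hi)).1⟩
    · exact hf.2 (g (v 0)) (g (v n)) (rel2.mp (k _ List.mem_cons_self))
        (rtg_of_walk (v := fun i => g (v i)) fun i hi => rel1.mp (k (1, cns (v i) fun _ => v (i + 1))
          (List.mem_cons_of_mem _ (List.mem_cons_of_mem _
            (List.mem_map.mpr ⟨i, List.mem_range.mpr hi, rfl⟩)))))
        (rel3.mp (k _ (List.mem_cons_of_mem _ List.mem_cons_self)))) hn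
  obtain ⟨u, hu, v', b1, b2⟩ := hvL.refute ht (fun x => {ψ x}) (fun _ => by simp)
    (fun x a ha => by rw [show a = ψ x from ha]; exact a3 x) (ch_single.mpr rfl)
    (.inr ⟨by simp [wd_length], by
      rw [wd_map, good_wd hP, a1, show (4 * μ + 2) / 4 = μ by omega]
      rintro (h | h)
      · omega
      · exact a5 h⟩)
  obtain ⟨b3, b4⟩ := b2.resolve_left (hl u (hsub hu))
  obtain ⟨x, u', rfl⟩ := exists_wd b3
  rw [ch_single.mp b1, wd_map, good_wd hP] at b4
  by_cases hx : x = p
  · subst hx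
    rw [a1, show (4 * μ + 2) / 4 = μ by omega] at b4
    exact b4 (.inr (a4 u' (hsub hu)))
  · exact b4 (.inl (a2 x hx))

end Pool.Agent.P.MP_485d6e_al.U
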