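import Pool.Agent.P.MP_485d6e_al.U.Prim

/-! The reduction of the halting problem. -/

set_option autoImplicit false

namespace Pool.Agent.P.MP_485d6e_al.U

open Pool.Agent.P.MP_e7c2f2_al (Tr Act MStep Prog Big WS cd cd_inj trans load mem_load ws_of_mem
  exists_universal)
open Function (update)

theorem reach_big {tr : List Tr} {p v v'} (h : Big p v v') :
    ∀ K, trans p K ⊆ tr → Reach tr (cd (p :: K)) v → Reach tr (cd K) v' := by
  induction h with
  | inc i σ => exact fun K h r => r.step ⟨_, _, h List.mem_cons_self, .inr (.inl ⟨rfl, rfl⟩)⟩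
  | dec i σ =>
    intro K h r
    by_cases h0 : 0 < σ i
    · exact r.step ⟨_, _, h List.mem_cons_self, .inr (.inr (.inl ⟨rfl, h0, rfl⟩))⟩
    · rw [show σ i - 1 = σ i by omega, Function.update_eq_self]
      exact r.step ⟨_, _, h (List.mem_cons_of_mem _ List.mem_cons_self),
        .inr (.inr (.inr (.inl ⟨rfl, by omega, rfl⟩)))⟩
  | seq _ _ ih1 ih2 =>
    exact fun K h r => ih2 K (fun x hx => h (by simp [MP_e7c2f2_al.trans, hx])) (ih1 _
      (fun x hx => h (by simp [MP_e7c2f2_al.trans, hx])) (r.step ⟨_, _, h List.mem_cons_self, .inl ⟨rfl, rfl⟩⟩))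
  | loop0 h0 =>
    exact fun K h r => r.step ⟨_, _, h List.mem_cons_self,
      .inr (.inr (.inr (.inl ⟨rfl, by omega, rfl⟩)))⟩
  | loopS h0 _ _ ih1 ih2 =>
    exact fun K h r => ih2 K h (ih1 _ (fun x hx => h (by simp [MP_e7c2f2_al.trans, hx]))
      (r.step ⟨_, _, h (List.mem_cons_of_mem _ List.mem_cons_self),
        .inr (.inr (.inr (.inr ⟨rfl, h0, rfl⟩)))⟩))

theorem term_back {K v K' v'} (h : WS K v K' v') (h' : Pool.Agent.P.MP_e7c2f2_al.Term K' v') :
    Pool.Agent.P.MP_e7c2f2_al.Term K v := by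
  cases h with
  | inc => exact ⟨_, .inc _ _, h'⟩
  | dec => exact ⟨_, .dec _ _, h'⟩
  | seq =>
    obtain ⟨v₁, h1, v₂, h2, h3⟩ := h'
    exact ⟨v₂, .seq h1 h2, h3⟩
  | loop0 _ _ _ _ h0 => exact ⟨_, .loop0 (by omega), h'⟩
  | loopS _ _ _ _ h0 =>
    obtain ⟨v₁, h1, v₂, h2, h3⟩ := h'
    exact ⟨v₂, .loopS h0 h1 h2, h3⟩

theorem reach_iff (U : Prog) (n : ℕ) : (∃ c, Reach (load (trans U []) (cd [U]) n) (cd []) c) ↔
    ∃ v', Big U (update (fun _ => 0) 0 (n + 1)) v' := by
  constructor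
  · rintro ⟨c, hc⟩
    by_contra hn
    have key : ∀ q v, Reach (load (trans U []) (cd [U]) n) q v →
        (∃ j, q = 2 * j ∧ v = update (fun _ => 0) 0 j) ∨
          ∃ K, q = cd K ∧ ¬ Pool.Agent.P.MP_e7c2f2_al.Term K v := by
      intro q v h
      induction h with
      | init => exact .inl ⟨0, rfl, by simp⟩
      | step _ hs ih =>
        obtain ⟨i, k, hx, ha⟩ := hs
        rcases mem_load.mp hx with e | ⟨j, -, e⟩ | hx
        · simp only [Prod.mk.injEq] at e
          obtain ⟨rfl, rfl, rfl, rfl⟩ := e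
          rcases ih with ⟨j, a, rfl⟩ | ⟨K, a, -⟩
          · obtain rfl : n = j := by omega
            refine .inr ⟨_, rfl, fun ⟨v', b, _⟩ => hn ⟨v', ?_⟩⟩
            simp only [Act] at ha
            simp_all
          · unfold cd at a; omega
        · simp only [Prod.mk.injEq] at e
          obtain ⟨rfl, rfl, rfl, rfl⟩ := e
          rcases ih with ⟨j', a, rfl⟩ | ⟨K, a, -⟩
          · obtain rfl : j = j' := by omega
            exact .inl ⟨_, rfl, by simpa [Act] using ha⟩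
          · unfold cd at a; omega
        · obtain ⟨K₁, K₂, a, b, -, d⟩ := ws_of_mem U [] _ hx
          rcases ih with ⟨j, e, -⟩ | ⟨K, e, f⟩
          · unfold cd at a; simp only at a; omega
          · obtain rfl := cd_inj (a.symm.trans e)
            exact .inr ⟨K₂, b, fun g => f (term_back (d _ _ ha) g)⟩
    rcases key _ _ hc with ⟨j, a, -⟩ | ⟨K, a, b⟩
    · unfold cd at a; omega
    · exact b (cd_inj a ▸ trivial)
  · rintro ⟨v', h⟩
    have key : ∀ j ≤ n, Reach (load (trans U []) (cd [U]) n) (2 * j) (update (fun _ => 0) 0 j) := by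
      intro j
      induction j with
      | zero => intro _; simpa using Reach.init
      | succ j ih =>
        exact fun hj => (ih (by omega)).step ⟨0, 1, mem_load.mpr (.inr (.inl ⟨j, hj, rfl⟩)),
          .inr (.inl ⟨rfl, by simp⟩)⟩
    exact ⟨v', reach_big h [] (fun x hx => mem_load.mpr (.inr (.inr hx)))
      ((key n le_rfl).step ⟨0, 1, mem_load.mpr (.inl rfl), .inr (.inl ⟨rfl, by simp⟩)⟩)⟩

open Nat.Partrec in
theorem exists_par : ∃ P : ℕ → Par, Primrec P ∧ ∀ n, WF (P n) ∧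
    ((∃ c, Reach (P n).tr (P n).h c) ↔ (Code.eval (Denumerable.ofNat Code n) 0).Dom) := by
  obtain ⟨U, hU⟩ := exists_universal
  obtain ⟨C, hC⟩ : ∃ C, ∀ x ∈ trans U [], x.1 + x.2.1 + x.2.2.1 ≤ C :=
    ⟨((trans U []).map fun x => x.1 + x.2.1 + x.2.2.1).sum, fun x hx =>
      List.single_le_sum (by simp) _ (List.mem_map.mpr ⟨x, hx, rfl⟩)⟩
  refine ⟨fun n => (C + 1, C + cd [U] + cd [] + 2 * n + 1, cd [], load (trans U []) (cd [U]) n),
    by unfold load; fun_prop, fun n => ⟨⟨?_, ?_, ?_, fun x hx => ?_⟩, (reach_iff U n).trans (hU n)⟩⟩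
  · simp [Par.d]
  · simp [Par.Q]
  · simp only [Par.h, Par.Q]; omega
  · rcases mem_load.mp hx with rfl | ⟨j, c, rfl⟩ | hx
    · simp only [Par.d, Par.Q]; omega
    · simp only [Par.d, Par.Q]; omega
    · have := hC x hx
      simp only [Par.d, Par.Q]; omega

open Nat.Partrec in
theorem undecidable : ¬ ∃ D : List (List ℕ) → Bool, Computable D ∧
    ∀ (n : ℕ) (mul : Fin n → Fin n → Fin n), (∀ a b c, mul (mul a b) c = mul a (mul b c)) →
      (∃ (c : ℕ) (z : Fin n), ∀ (a : Fin n) (l : List (Fin n)), l.length = c →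
        l.foldl mul a = z) →
      (D (List.ofFn fun a : Fin n => List.ofFn fun b : Fin n => (mul a b).val) = true ↔
        FinitelyBased (Pow.add (S := Fin n)) (@Pow.mul (Fin n) ⟨mul⟩)) := by
  rintro ⟨D, hD, h⟩
  obtain ⟨P, hP, h1⟩ := exists_par
  classical
  refine ComputablePred.halting_problem 0 ⟨inferInstance,
    (hD.comp (((p_table hP).to_comp).comp Computable.encode)).of_eq fun c => ?_⟩
  obtain ⟨hW, e⟩ := h1 (Encodable.encode c)
  rw [Denumerable.ofNat_encode] at e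
  have := h _ (mulF _) (sg hW).mul_assoc ⟨_, _, sg_nil hW⟩
  rw [table_eq, Bool.eq_iff_iff, decide_eq_true_iff]
  refine this.trans (Iff.trans ⟨fun hF => ?_,
    fun ⟨_, hc⟩ => @fb_of_halt _ _ (sg hW) hW (sg_pres hW) _ hc⟩ e)
  by_contra hn
  exact @nfb_of_not_halt _ _ (sg hW) hW (sg_pres hW) (fun c hc => hn ⟨c, hc⟩) hF

end Pool.Agent.P.MP_485d6e_al.U
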