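import Pool.Agent.P.MP_e7c2f2_al.Mach

/-! Frames: relational structures in which a counter machine is simulated by Horn rules, and the
finite frames given by flags. -/

set_option autoImplicit false

namespace Pool.Agent.P.MP_485d6e_al.U

open Pool.Agent.P.MP_e7c2f2_al (Tr Act MStep)
open Relation

/-- number of counters, number of states, halting state, transitions -/
abbrev Par := ℕ × ℕ × ℕ × List Tr

abbrev Par.d (P : Par) : ℕ := P.1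
abbrev Par.Q (P : Par) : ℕ := P.2.1
abbrev Par.h (P : Par) : ℕ := P.2.2.1
abbrev Par.tr (P : Par) : List Tr := P.2.2.2

structure WF (P : Par) : Prop where
  d : 1 ≤ P.d
  Q : 0 < P.Q
  h : P.h < P.Q
  tr : ∀ t ∈ P.tr, t.1 < P.Q ∧ t.2.1 < P.Q ∧ t.2.2.1 < P.d

structure Fr where
  E : ℕ → ℕ → Prop
  S : ℕ → Prop
  En : ℕ → Prop
  r : ℕ → (ℕ → ℕ) → ℕ → Prop

def Link (f : Fr) (k a b : ℕ) : Prop :=
  (k = 0 ∧ b = a) ∨ (k = 1 ∧ f.E a b) ∨ (k = 2 ∧ f.E b a) ∨ (k = 3 ∧ b = a ∧ f.S a) ∨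
    (k = 4 ∧ b = a ∧ ∃ c, f.E c a)

structure IsFr (P : Par) (f : Fr) : Prop where
  cong : ∀ q x x' z, (∀ κ < P.d, x κ = x' κ) → f.r q x z → f.r q x' z
  init : ∀ x z, (∀ κ < P.d, f.S (x κ)) → f.S z → f.r 0 x z
  slide : ∀ q x z z', f.r q x z → f.E z z' → f.r q x z'
  step : ∀ t ∈ P.tr, ∀ x x' e s, f.r t.1 x e → f.En e → f.S s →
    Link f t.2.2.2 (x t.2.2.1) (x' t.2.2.1) → (∀ κ < P.d, κ ≠ t.2.2.1 → x' κ = x κ) →
    f.r t.2.1 x' s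
  halt : ∀ x e, f.r P.h x e → ¬ f.En e

def NoWalk (f : Fr) : Prop := ∀ a b, f.S a → ReflTransGen f.E a b → ¬ f.En b

theorem IsFr.slides {P : Par} {f : Fr} (hf : IsFr P f) {q x z z'} (h : f.r q x z)
    (hz : ReflTransGen f.E z z') : f.r q x z' := by
  induction hz with
  | refl => exact h
  | tail _ e ih => exact hf.slide _ _ _ _ ih e

theorem exists_walk {E : ℕ → ℕ → Prop} {a b : ℕ} (h : ReflTransGen E a b) :
    ∃ (n : ℕ) (v : ℕ → ℕ), v 0 = a ∧ v n = b ∧ ∀ i < n, E (v i) (v (i + 1)) := by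
  induction h with
  | refl => exact ⟨0, fun _ => a, rfl, rfl, fun _ h => absurd h (by omega)⟩
  | @tail b c _ e ih =>
    obtain ⟨n, v, h0, hn, hv⟩ := ih
    refine ⟨n + 1, fun i => if i ≤ n then v i else c, by simpa using h0, by simp, fun i hi => ?_⟩
    by_cases h : i < n
    · simp only [show i ≤ n by omega, show i + 1 ≤ n by omega, if_true]; exact hv i h
    · obtain rfl : i = n := by omega
      simpa [hn] using e

theorem rtg_of_walk {E : ℕ → ℕ → Prop} {n : ℕ} {v : ℕ → ℕ} (h : ∀ i < n, E (v i) (v (i + 1))) :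
    ReflTransGen E (v 0) (v n) := by
  induction n with
  | zero => exact .refl
  | succ n ih => exact (ih fun i hi => h i (by omega)).tail (h n (by omega))

/-! ### the finite frames -/

def bt (a j : ℕ) : Prop := a / 2 ^ j % 2 = 1

def HE (P : Par) (a a' : ℕ) : Prop :=
  (bt a' 2 → bt a 2) ∧ (bt a' 3 → bt a 3) ∧ bt a' 4 ∧
    ∀ κ < P.d, (bt a' (5 + 3 * κ) → bt a (6 + 3 * κ)) ∧ (bt a (5 + 3 * κ) → bt a' (7 + 3 * κ))

def HS (μ a : ℕ) : Prop := bt a 0 ∧ ¬ bt a 2 ∧ (μ % 2 = 1 ∨ ¬ bt a 3)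

def HEn (a : ℕ) : Prop := bt a 1 ∧ bt a 2

def Mk (μ k i a : ℕ) : Prop :=
  (k = 0 ∧ bt a (5 + 3 * i)) ∨ (k = 1 ∧ bt a (6 + 3 * i)) ∨ (k = 2 ∧ bt a (7 + 3 * i)) ∨
    (k = 3 ∧ bt a (5 + 3 * i) ∧ HS μ a) ∨ (k = 4 ∧ bt a (5 + 3 * i) ∧ bt a 4)

/-- the forbidden tuples -/
def HF (P : Par) (μ q : ℕ) (x : ℕ → ℕ) (c : ℕ) : Prop :=
  (q = P.h ∧ bt c 2) ∨
  (q = μ / 2 ∧ (∀ κ < P.d, bt (x κ) (5 + 3 * κ)) ∧ bt c 3 ∧
    ¬ (μ / 2 = 0 ∧ μ % 2 = 1 ∧ ∀ κ < P.d, HS μ (x κ))) ∨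
  (μ % 2 = 1 ∧ bt c 2 ∧ ∃ t ∈ P.tr, t.1 = q ∧ t.2.1 = μ / 2 ∧
    Mk μ t.2.2.2 t.2.2.1 (x t.2.2.1) ∧ ∀ κ < P.d, κ ≠ t.2.2.1 → bt (x κ) (5 + 3 * κ))

def H (P : Par) (μ : ℕ) : Fr := ⟨HE P, HS μ, HEn, fun q x c => ¬ HF P μ q x c⟩

theorem HF_cong {P : Par} (hP : WF P) {μ q : ℕ} {x x' : ℕ → ℕ} {c : ℕ}
    (h : ∀ κ < P.d, x κ = x' κ) (h1 : HF P μ q x c) : HF P μ q x' c := by
  rcases h1 with h1 | ⟨a, b, c, d⟩ | ⟨a, b, t, ht, c, d, e, f⟩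
  · exact .inl h1
  · refine .inr (.inl ⟨a, fun κ hκ => h κ hκ ▸ b κ hκ, c, fun ⟨e, f, g⟩ => d ⟨e, f, fun κ hκ => ?_⟩⟩)
    rw [h κ hκ]; exact g κ hκ
  · exact .inr (.inr ⟨a, b, t, ht, c, d, h _ (hP.tr t ht).2.2 ▸ e,
      fun κ hκ hn => h κ hκ ▸ f κ hκ hn⟩)

theorem H_isFr {P : Par} (hP : WF P) (μ : ℕ) : IsFr P (H P μ) where
  cong := fun q x x' z h h1 h2 => h1 (HF_cong hP (fun κ hκ => (h κ hκ).symm) h2)
  init := by
    rintro x z hx hz (⟨-, h⟩ | ⟨a, -, b, c⟩ | ⟨-, h, -⟩)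
    · exact hz.2.1 h
    · exact c ⟨a.symm, hz.2.2.resolve_right fun h => h b, hx⟩
    · exact hz.2.1 h
  slide := by
    rintro q x z z' h e (⟨a, b⟩ | ⟨a, b, c, d⟩ | ⟨a, b, c⟩)
    · exact h (.inl ⟨a, e.1 b⟩)
    · exact h (.inr (.inl ⟨a, b, e.2.1 c, d⟩))
    · exact h (.inr (.inr ⟨a, e.1 b, c⟩))
  step := by
    rintro t ht x x' e s h he hs hl ho (⟨-, b⟩ | ⟨a, b, c, -⟩ | ⟨-, b, -⟩)
    · exact hs.2.1 b
    · have hi := (hP.tr t ht).2.2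
      refine h (.inr (.inr ⟨hs.2.2.resolve_right fun h => h c, he.2, t, ht, rfl, a, ?_,
        fun κ hκ hn => ho κ hκ hn ▸ b κ hκ⟩))
      have b' := b _ hi
      rcases hl with ⟨k, l⟩ | ⟨k, l⟩ | ⟨k, l⟩ | ⟨k, l, m⟩ | ⟨k, l, y, m⟩
      · exact .inl ⟨k, l ▸ b'⟩
      · exact .inr (.inl ⟨k, (l.2.2.2 _ hi).1 b'⟩)
      · exact .inr (.inr (.inl ⟨k, (l.2.2.2 _ hi).2 b'⟩))
      · exact .inr (.inr (.inr (.inl ⟨k, l ▸ b', m⟩)))
      · exact .inr (.inr (.inr (.inr ⟨k, l ▸ b', m.2.2.1⟩)))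
    · exact hs.2.1 b
  halt := fun x e h he => h (.inl ⟨rfl, he.2⟩)

theorem H_noWalk (P : Par) (μ : ℕ) : NoWalk (H P μ) := by
  intro a b ha hab hb
  have : ∀ a, ReflTransGen (H P μ).E a b → bt a 2 := by
    intro a hab
    induction hab using ReflTransGen.head_induction_on with
    | refl => exact hb.2
    | head e _ ih => exact e.1 ih
  exact ha.2.1 (this a hab)

theorem exists_flags (n : ℕ) (fl : ℕ → ℕ → Prop) :
    ∃ g : ℕ → ℕ, (∀ v, g v < 2 ^ n) ∧ ∀ v, ∀ j < n, bt (g v) j ↔ fl j v := by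
  classical
  refine ⟨fun v => Nat.ofBits fun j : Fin n => decide (fl j v),
    fun v => Nat.ofBits_lt_two_pow _, fun v j hj => ?_⟩
  have := Nat.testBit_ofBits_lt (fun j : Fin n => decide (fl j v)) j hj
  rw [Nat.testBit_eq_decide_div_mod_eq] at this
  simpa [bt] using this

structure Hom (f f' : Fr) (g : ℕ → ℕ) : Prop where
  E : ∀ a b, f.E a b → f'.E (g a) (g b)
  S : ∀ a, f.S a → f'.S (g a)
  En : ∀ a, f.En a → f'.En (g a)
  r : ∀ q x c, f.r q x c → f'.r q (fun κ => g (x κ)) (g c)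

/-- A missing tuple of a frame without walks is missing in the image under a homomorphism to one
of the finite frames. -/
theorem sep {P : Par} (hP : WF P) {f : Fr} (hf : IsFr P f) (hw : NoWalk f) (q₀ : ℕ) (x₀ : ℕ → ℕ)
    (z₀ : ℕ) (hm : ¬ f.r q₀ x₀ z₀) :
    ∃ μ g, μ < 2 * q₀ + 2 ∧ (∀ v, g v < 2 ^ (5 + 3 * P.d)) ∧ Hom f (H P μ) g ∧
      ¬ (H P μ).r q₀ (fun κ => g (x₀ κ)) (g z₀) ∧
      (∀ a, (H P μ).E (g a) (g (x₀ 0)) → f.E a (x₀ 0)) ∧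
      (∀ a, (H P μ).S (g a) → f.S a) ∧ (∀ a, (H P μ).En (g a) → f.En a) := by
  classical
  obtain ⟨g, hg, hb⟩ := exists_flags (5 + 3 * P.d) fun j v =>
    if j = 0 then f.S v else if j = 1 then f.En v else
    if j = 2 then ∃ e, f.En e ∧ ReflTransGen f.E v e else
    if j = 3 then ReflTransGen f.E v z₀ else if j = 4 then ∃ b, f.E b v else
    if (j - 5) % 3 = 0 then v = x₀ ((j - 5) / 3) else
    if (j - 5) % 3 = 1 then f.E v (x₀ ((j - 5) / 3)) else f.E (x₀ ((j - 5) / 3)) v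
  have b0 : ∀ v, bt (g v) 0 ↔ f.S v := fun v => by rw [hb v 0 (by omega)]; simp
  have b1 : ∀ v, bt (g v) 1 ↔ f.En v := fun v => by rw [hb v 1 (by omega)]; simp
  have b2 : ∀ v, bt (g v) 2 ↔ ∃ e, f.En e ∧ ReflTransGen f.E v e := fun v => by
    rw [hb v 2 (by omega)]; simp
  have b3 : ∀ v, bt (g v) 3 ↔ ReflTransGen f.E v z₀ := fun v => by rw [hb v 3 (by omega)]; simp
  have b4 : ∀ v, bt (g v) 4 ↔ ∃ b, f.E b v := fun v => by rw [hb v 4 (by omega)]; simp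
  have b5 : ∀ v, ∀ κ < P.d, bt (g v) (5 + 3 * κ) ↔ v = x₀ κ := fun v κ hκ => by
    rw [hb v _ (by omega), if_neg (by omega), if_neg (by omega), if_neg (by omega),
      if_neg (by omega), if_neg (by omega), if_pos (by omega), show (5 + 3 * κ - 5) / 3 = κ by omega]
  have b6 : ∀ v, ∀ κ < P.d, bt (g v) (6 + 3 * κ) ↔ f.E v (x₀ κ) := fun v κ hκ => by
    rw [hb v _ (by omega), if_neg (by omega), if_neg (by omega), if_neg (by omega),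
      if_neg (by omega), if_neg (by omega), if_neg (by omega), if_pos (by omega),
      show (6 + 3 * κ - 5) / 3 = κ by omega]
  have b7 : ∀ v, ∀ κ < P.d, bt (g v) (7 + 3 * κ) ↔ f.E (x₀ κ) v := fun v κ hκ => by
    rw [hb v _ (by omega), if_neg (by omega), if_neg (by omega), if_neg (by omega),
      if_neg (by omega), if_neg (by omega), if_neg (by omega), if_neg (by omega),
      show (7 + 3 * κ - 5) / 3 = κ by omega]
  obtain ⟨μ, hμ1, hμ2⟩ : ∃ μ, μ / 2 = q₀ ∧ (μ % 2 = 1 ↔ ∃ s, f.S s ∧ ReflTransGen f.E s z₀) := by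
    by_cases h : ∃ s, f.S s ∧ ReflTransGen f.E s z₀
    · exact ⟨2 * q₀ + 1, by omega, iff_of_true (by omega) h⟩
    · exact ⟨2 * q₀, by omega, iff_of_false (by omega) h⟩
  refine ⟨μ, g, by omega, hg, ⟨fun a b e => ⟨?_, ?_, ?_, fun κ hκ => ⟨?_, ?_⟩⟩, fun a h => ⟨?_, ?_, ?_⟩,
    fun a h => ⟨?_, ?_⟩, fun q x c h => ?_⟩, fun h => h ?_, fun a h => ?_, fun a h => ?_,
    fun a h => ?_⟩
  · rw [b2, b2]; exact fun ⟨e', h1, h2⟩ => ⟨e', h1, h2.head e⟩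
  · rw [b3, b3]; exact fun h => h.head e
  · rw [b4]; exact ⟨a, e⟩
  · rw [b5 _ _ hκ, b6 _ _ hκ]; rintro rfl; exact e
  · rw [b5 _ _ hκ, b7 _ _ hκ]; rintro rfl; exact e
  · exact (b0 a).mpr h
  · rw [b2]; exact fun ⟨e, h1, h2⟩ => hw a e h h2 h1
  · rw [b3, hμ2]
    by_cases h' : ReflTransGen f.E a z₀
    · exact .inl ⟨a, h, h'⟩
    · exact .inr h'
  · exact (b1 a).mpr h
  · exact (b2 a).mpr ⟨a, h, .refl⟩
  · rintro (⟨rfl, a⟩ | ⟨rfl, a, b, -⟩ | ⟨a, b, t, ht, rfl, c, d, e⟩)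
    · obtain ⟨e, h1, h2⟩ := (b2 c).mp a
      exact hf.halt _ _ (hf.slides h h2) h1
    · rw [hμ1] at h
      exact hm (hf.slides (hf.cong _ _ _ _ (fun κ hκ => (b5 _ _ hκ).mp (a κ hκ)) h) ((b3 c).mp b))
    · obtain ⟨s, h1, h2⟩ := hμ2.mp a
      obtain ⟨e', h3, h4⟩ := (b2 _).mp b
      have hi := (hP.tr t ht).2.2
      refine hm (hf.slides ?_ h2)
      rw [← hμ1, ← c]
      refine hf.step t ht x x₀ e' s (hf.slides h h4) h3 h1 ?_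
        fun κ hκ hn => ((b5 _ _ hκ).mp (e κ hκ hn)).symm
      rcases d with ⟨k, l⟩ | ⟨k, l⟩ | ⟨k, l⟩ | ⟨k, l, m⟩ | ⟨k, l, m⟩
      · exact .inl ⟨k, ((b5 _ _ hi).mp l).symm⟩
      · exact .inr (.inl ⟨k, (b6 _ _ hi).mp l⟩)
      · exact .inr (.inr (.inl ⟨k, (b7 _ _ hi).mp l⟩))
      · exact .inr (.inr (.inr (.inl ⟨k, ((b5 _ _ hi).mp l).symm, (b0 _).mp m.1⟩)))
      · exact .inr (.inr (.inr (.inr ⟨k, ((b5 _ _ hi).mp l).symm, (b4 _).mp m⟩)))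
  · refine .inr (.inl ⟨hμ1.symm, fun κ hκ => (b5 _ _ hκ).mpr rfl, (b3 _).mpr .refl, ?_⟩)
    rintro ⟨a, b, c⟩
    obtain ⟨s, h1, h2⟩ := hμ2.mp b
    rw [← hμ1, a] at hm
    exact hm (hf.slides (hf.init _ _ (fun κ hκ => (b0 _).mp (c κ hκ).1) h1) h2)
  · exact (b6 _ _ hP.d).mp ((h.2.2.2 0 hP.d).1 ((b5 _ _ hP.d).mpr rfl))
  · exact (b0 _).mp h.1
  · exact (b1 _).mp h.1

/-! ### runs -/

/-- reachable configurations -/
inductive Reach (tr : List Tr) : ℕ → (ℕ → ℕ) → Prop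
  | init : Reach tr 0 fun _ => 0
  | step {q v q' v'} : Reach tr q v → MStep tr q v q' v' → Reach tr q' v'

theorem sim {P : Par} {q : ℕ} {c : ℕ → ℕ} (h : Reach P.tr q c) :
    ∃ m, (∀ κ, c κ ≤ m) ∧ ∀ f, IsFr P f → ∀ n, m ≤ n → ∀ v : ℕ → ℕ, f.S (v 0) →
      (∀ i < n, f.E (v i) (v (i + 1))) → f.En (v n) → f.r q (fun κ => v (c κ)) (v 0) := by
  induction h with
  | init => exact ⟨0, fun _ => le_rfl, fun f hf n _ v h0 _ _ => hf.init _ _ (fun _ _ => h0) h0⟩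
  | @step q c q' c' _ hs ih =>
    obtain ⟨m, h1, h2⟩ := ih
    obtain ⟨i, k, ht, ha⟩ := hs
    have hc : ∀ κ, κ ≠ i → c' κ = c κ := by
      intro κ hκ
      rcases ha with ⟨-, rfl⟩ | ⟨-, rfl⟩ | ⟨-, -, rfl⟩ | ⟨-, -, rfl⟩ | ⟨-, -, rfl⟩ <;> simp [hκ]
    have hi := h1 i
    refine ⟨m + 1, fun κ => ?_, fun f hf n hn v h0 hv he => ?_⟩
    · by_cases hκ : κ = i
      · subst hκ
        rcases ha with ⟨-, rfl⟩ | ⟨-, rfl⟩ | ⟨-, -, rfl⟩ | ⟨-, -, rfl⟩ | ⟨-, -, rfl⟩ <;>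
          (try simp only [Function.update_self]) <;> omega
      · rw [hc κ hκ]; exact (h1 κ).trans (by omega)
    · refine hf.step _ ht _ _ _ _ (hf.slides (h2 f hf n (by omega) v h0 hv he) (rtg_of_walk hv))
        he h0 ?_ fun κ _ hκ => by rw [hc κ hκ]
      rcases ha with ⟨k, rfl⟩ | ⟨k, rfl⟩ | ⟨k, l, rfl⟩ | ⟨k, l, rfl⟩ | ⟨k, l, rfl⟩
      · exact .inl ⟨k, rfl⟩
      · exact .inr (.inl ⟨k, by simpa using hv _ (by omega)⟩)
      · refine .inr (.inr (.inl ⟨k, ?_⟩))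
        have := hv (c i - 1) (by omega)
        rw [show c i - 1 + 1 = c i by omega] at this
        simpa using this
      · exact .inr (.inr (.inr (.inl ⟨k, rfl, by simpa [l] using h0⟩)))
      · refine .inr (.inr (.inr (.inr ⟨k, rfl, v (c' i - 1), ?_⟩)))
        have := hv (c' i - 1) (by omega)
        rwa [show c' i - 1 + 1 = c' i by omega] at this

/-- if the machine halts, frames have no long walks -/
theorem no_long_walk {P : Par} {c : ℕ → ℕ} (h : Reach P.tr P.h c) :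
    ∃ m, ∀ f, IsFr P f → ∀ n, m ≤ n → ∀ v : ℕ → ℕ, f.S (v 0) →
      (∀ i < n, f.E (v i) (v (i + 1))) → ¬ f.En (v n) := by
  obtain ⟨m, -, h2⟩ := sim h
  exact ⟨m, fun f hf n hn v h0 hv he =>
    hf.halt _ _ (hf.slides (h2 f hf n hn v h0 hv he) (rtg_of_walk hv)) he⟩

/-- the path with the reachable configurations -/
def Y (P : Par) (m : ℕ) : Fr :=
  ⟨fun a b => b = a + 1, fun a => a = 0, fun a => a = m,
    fun q x _ => ∃ c, Reach P.tr q c ∧ ∀ κ < P.d, x κ = c κ⟩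

theorem Y_isFr {P : Par} (hP : WF P) (hn : ∀ c, ¬ Reach P.tr P.h c) (m : ℕ) : IsFr P (Y P m) where
  cong := fun q x x' z h ⟨c, h1, h2⟩ => ⟨c, h1, fun κ hκ => (h κ hκ).symm.trans (h2 κ hκ)⟩
  init := fun x z h _ => ⟨_, .init, h⟩
  slide := fun _ _ _ _ h _ => h
  step := by
    rintro ⟨q, q', i, k⟩ ht x x' e s ⟨c, h1, h2⟩ - - hl ho
    have hi := h2 i (hP.tr _ ht).2.2
    have key : ∀ c', Act i k c c' → x' i = c' i → (∀ κ, κ ≠ i → c' κ = c κ) →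
        (Y P m).r q' x' s := by
      refine fun c' a b d => ⟨c', h1.step ⟨i, k, ht, a⟩, fun κ hκ => ?_⟩
      by_cases h : κ = i
      · rw [h, b]
      · rw [d κ h, ho κ hκ h, h2 κ hκ]
    simp only [Link, Y] at hl
    rcases hl with ⟨k, l⟩ | ⟨k, l⟩ | ⟨k, l⟩ | ⟨k, l, m⟩ | ⟨k, l, y, m⟩
    · exact key c (.inl ⟨k, rfl⟩) (by omega) fun _ _ => rfl
    · exact key _ (.inr (.inl ⟨k, rfl⟩)) (by simp; omega) fun _ h => by simp [h]
    · exact key _ (.inr (.inr (.inl ⟨k, by omega, rfl⟩))) (by simp; omega) fun _ h => by simp [h]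
    · exact key c (.inr (.inr (.inr (.inl ⟨k, by omega, rfl⟩)))) (by omega) fun _ _ => rfl
    · exact key c (.inr (.inr (.inr (.inr ⟨k, by omega, rfl⟩)))) (by omega) fun _ _ => rfl
  halt := fun x e ⟨c, h, _⟩ _ => hn c h

end Pool.Agent.P.MP_485d6e_al.U
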