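import Pool.Agent.P.MP_485d6e_al.U.Fr

/-! Good tuples of letters: blocks of pads, blocks of vertices of a frame, typed tuples. -/

set_option autoImplicit false

namespace Pool.Agent.P.MP_485d6e_al.U

open Relation

/-- number of arguments -/
abbrev Par.k (P : Par) : ℕ := (P.Q + 4) * (P.d + 1)
/-- number of letters -/
abbrev Par.L (P : Par) : ℕ := 4 * 2 ^ (5 + 3 * P.d) + 8 * P.k + 8 * P.Q + 8

def Pad (a : ℕ) : Prop := a % 4 = 1 ∨ a % 4 = 2
def Vx (a : ℕ) : Prop := a % 4 = 0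

def rel (f : Fr) (i : ℕ) (B : ℕ → ℕ) : Prop :=
  i = 0 ∨ (i = 1 ∧ f.E (B 0) (B 1)) ∨ (i = 2 ∧ f.S (B 0)) ∨ (i = 3 ∧ f.En (B 0)) ∨
    (4 ≤ i ∧ f.r (i - 4) (fun κ => B (κ + 1)) (B 0))

def BlkOK (P : Par) (f : Fr) (i : ℕ) (B : ℕ → ℕ) : Prop :=
  (∀ κ < P.d + 1, Pad (B κ)) ∨ ((∀ κ < P.d + 1, Vx (B κ)) ∧ rel f i fun κ => B κ / 4)

def blk (P : Par) (a : ℕ → ℕ) (i κ : ℕ) : ℕ := a (i * (P.d + 1) + κ)

def Typed (P : Par) (a : ℕ → ℕ) : Prop :=
  (∀ j < P.k, a j % 4 = 3 ∧ a j / 8 = j) ∧ ∃ j < P.k, a j % 8 = 3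

def GoodA (P : Par) (f : Fr) (a : ℕ → ℕ) : Prop :=
  (∀ i < P.Q + 4, BlkOK P f i (blk P a i)) ∨ Typed P a

def pad (P : Par) (p i : ℕ) (B : ℕ → ℕ) (j : ℕ) : ℕ := if j / (P.d + 1) = i then B (j % (P.d + 1)) else p

theorem rel0 {f : Fr} {B : ℕ → ℕ} : rel f 0 B := .inl rfl
theorem rel1 {f : Fr} {B : ℕ → ℕ} : rel f 1 B ↔ f.E (B 0) (B 1) := by simp [rel]
theorem rel2 {f : Fr} {B : ℕ → ℕ} : rel f 2 B ↔ f.S (B 0) := by simp [rel]
theorem rel3 {f : Fr} {B : ℕ → ℕ} : rel f 3 B ↔ f.En (B 0) := by simp [rel]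
theorem rel4 {f : Fr} {B : ℕ → ℕ} {q : ℕ} :
    rel f (q + 4) B ↔ f.r q (fun κ => B (κ + 1)) (B 0) := by simp [rel]

theorem blk_cases (i : ℕ) : i = 0 ∨ i = 1 ∨ i = 2 ∨ i = 3 ∨ ∃ q, i = q + 4 := by
  by_cases h : i < 4
  · omega
  · exact .inr (.inr (.inr (.inr ⟨i - 4, by omega⟩)))

variable {P : Par} {f : Fr}

theorem pos_lt {i κ : ℕ} (hi : i < P.Q + 4) (hκ : κ < P.d + 1) : i * (P.d + 1) + κ < P.k := by
  have : (i + 1) * (P.d + 1) ≤ (P.Q + 4) * (P.d + 1) := Nat.mul_le_mul_right _ hi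
  rw [Nat.add_mul, one_mul] at this
  show _ < (P.Q + 4) * (P.d + 1)
  omega

theorem pos_div {i κ : ℕ} (hκ : κ < P.d + 1) : (i * (P.d + 1) + κ) / (P.d + 1) = i := by
  rw [Nat.add_comm, Nat.add_mul_div_right _ _ (by omega), Nat.div_eq_of_lt hκ, Nat.zero_add]

theorem pos_mod {i κ : ℕ} (hκ : κ < P.d + 1) : (i * (P.d + 1) + κ) % (P.d + 1) = κ := by
  rw [Nat.add_comm, Nat.add_mul_mod_self_right, Nat.mod_eq_of_lt hκ]

theorem pos_split {j : ℕ} (hj : j < P.k) : ∃ i < P.Q + 4, ∃ κ < P.d + 1, j = i * (P.d + 1) + κ :=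
  ⟨j / (P.d + 1), Nat.div_lt_of_lt_mul (by rwa [Nat.mul_comm]), j % (P.d + 1), Nat.mod_lt _ (by omega),
    (Nat.div_add_mod' _ _).symm⟩

theorem two_le_k : 2 ≤ P.k := by
  have : 4 * 1 ≤ (P.Q + 4) * (P.d + 1) := Nat.mul_le_mul (by omega) (by omega)
  show 2 ≤ (P.Q + 4) * (P.d + 1)
  omega

theorem rel_cong (hP : WF P) (hf : IsFr P f) {i : ℕ} {B B' : ℕ → ℕ} (h : ∀ κ < P.d + 1, B κ = B' κ)
    (h1 : rel f i B) : rel f i B' := by
  have h0 := h 0 (by omega)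
  have h1' := h 1 (by have := hP.d; omega)
  rcases h1 with a | ⟨a, b⟩ | ⟨a, b⟩ | ⟨a, b⟩ | ⟨a, b⟩
  · exact .inl a
  · exact .inr (.inl ⟨a, h0 ▸ h1' ▸ b⟩)
  · exact .inr (.inr (.inl ⟨a, h0 ▸ b⟩))
  · exact .inr (.inr (.inr (.inl ⟨a, h0 ▸ b⟩)))
  · exact .inr (.inr (.inr (.inr ⟨a, h0 ▸ hf.cong _ _ _ _ (fun κ hκ => h _ (by omega)) b⟩)))

theorem BlkOK.cong (hP : WF P) (hf : IsFr P f) {i : ℕ} {B B' : ℕ → ℕ}
    (h : ∀ κ < P.d + 1, B κ = B' κ) (h1 : BlkOK P f i B) : BlkOK P f i B' := by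
  rcases h1 with a | ⟨a, b⟩
  · exact .inl fun κ hκ => h κ hκ ▸ a κ hκ
  · exact .inr ⟨fun κ hκ => h κ hκ ▸ a κ hκ, rel_cong hP hf (fun κ hκ => by rw [h κ hκ]) b⟩

theorem Typed.cong {a a' : ℕ → ℕ} (h : ∀ j < P.k, a j = a' j) (h1 : Typed P a) : Typed P a' := by
  obtain ⟨h1, j, hj, h2⟩ := h1
  exact ⟨fun j hj => h j hj ▸ h1 j hj, j, hj, h j hj ▸ h2⟩

theorem GoodA.cong (hP : WF P) (hf : IsFr P f) {a a' : ℕ → ℕ} (h : ∀ j < P.k, a j = a' j)
    (h1 : GoodA P f a) : GoodA P f a' :=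
  h1.imp (fun h1 i hi => (h1 i hi).cong hP hf fun _ hκ => h _ (pos_lt hi hκ)) (Typed.cong h)

theorem BlkOK.kind {i : ℕ} {B : ℕ → ℕ} (h : BlkOK P f i B) {κ : ℕ} (hκ : κ < P.d + 1) :
    B κ % 4 ≠ 3 := by
  rcases h with h | ⟨h, -⟩
  · have := h κ hκ; unfold Pad at this; omega
  · have := h κ hκ; unfold Vx at this; omega

theorem GoodA.blocks {a : ℕ → ℕ} (h : GoodA P f a) {j : ℕ} (hj : j < P.k) (h3 : a j % 4 ≠ 3) :
    ∀ i < P.Q + 4, BlkOK P f i (blk P a i) :=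
  h.resolve_right fun h => h3 (h.1 j hj).1

theorem GoodA.typed {a : ℕ → ℕ} (h : GoodA P f a) {j : ℕ} (hj : j < P.k) (h3 : a j % 4 = 3) :
    Typed P a := by
  refine h.resolve_left fun h => ?_
  obtain ⟨i, hi, κ, hκ, rfl⟩ := pos_split hj
  exact (h i hi).kind hκ h3

theorem good_pads {a : ℕ → ℕ} (h : ∀ j < P.k, Pad (a j)) : GoodA P f a :=
  .inl fun _ hi => .inl fun _ hκ => h _ (pos_lt hi hκ)

theorem good_pad (hP : WF P) (hf : IsFr P f) {ψ : ℕ → ℕ} {p i : ℕ} {B : ℕ → ℕ} (hp : Pad (ψ p))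
    (hi : i < P.Q + 4) :
    GoodA P f (fun j => ψ (pad P p i B j)) ↔ BlkOK P f i fun κ => ψ (B κ) := by
  have e : ∀ κ < P.d + 1, blk P (fun j => ψ (pad P p i B j)) i κ = ψ (B κ) := by
    intro κ hκ
    simp only [blk, pad, pos_div hκ, pos_mod hκ, if_true]
  have e' : ∀ i', i' ≠ i → ∀ κ < P.d + 1, blk P (fun j => ψ (pad P p i B j)) i' κ = ψ p := by
    intro i' h κ hκ
    simp only [blk, pad, pos_div hκ, if_neg h]
  constructor
  · intro h
    obtain ⟨i', h1, h2⟩ : ∃ i' < P.Q + 4, i' ≠ i := by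
      by_cases h0 : i = 0
      · exact ⟨1, by omega, by omega⟩
      · exact ⟨0, by omega, by omega⟩
    refine (h.blocks (pos_lt h1 (show 0 < P.d + 1 by omega)) ?_ i hi).cong hP hf e
    have := e' i' h2 0 (by omega)
    unfold blk at this
    beta_reduce at this ⊢
    rw [this]
    unfold Pad at hp
    omega
  · refine fun h => .inl fun i' _ => ?_
    by_cases h0 : i' = i
    · subst h0
      exact h.cong hP hf fun κ hκ => (e κ hκ).symm
    · exact .inl fun κ hκ => (e' i' h0 κ hκ).symm ▸ hp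

/-! ### the power frame -/

def pw (P : Par) (f : Fr) (φ : ℕ → Set ℕ) : Fr :=
  ⟨fun x y => ∀ a ∈ φ x, ∀ b ∈ φ y, f.E (a / 4) (b / 4), fun x => ∀ a ∈ φ x, f.S (a / 4),
    fun x => ∀ a ∈ φ x, f.En (a / 4),
    fun q x z => ∀ a : ℕ → ℕ, (∀ κ < P.d, a κ ∈ φ (x κ)) → ∀ c ∈ φ z, f.r q (fun κ => a κ / 4) (c / 4)⟩

variable {φ : ℕ → Set ℕ}

theorem pw_isFr (hP : WF P) (hf : IsFr P f) (hφ : ∀ x, (φ x).Nonempty) : IsFr P (pw P f φ) where
  cong := fun q x x' z h h1 a ha => h1 a fun κ hκ => h κ hκ ▸ ha κ hκ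
  init := fun x z hx hz a ha c hc => hf.init _ _ (fun κ hκ => hx κ hκ _ (ha κ hκ)) (hz c hc)
  slide := fun q x z z' h e a ha c hc => by
    obtain ⟨b, hb⟩ := hφ z
    exact hf.slide _ _ _ _ (h a ha b hb) (e b hb c hc)
  step := by
    intro t ht x x' e s h he hs hl ho a ha c hc
    obtain ⟨b, hb⟩ := hφ e
    have hi := (hP.tr t ht).2.2
    have hai := ha _ hi
    obtain ⟨a₀, h1, h2⟩ : ∃ a₀ ∈ φ (x t.2.2.1), Link f t.2.2.2 (a₀ / 4) (a t.2.2.1 / 4) := by
      obtain ⟨a₀, h0⟩ := hφ (x t.2.2.1)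
      rcases hl with ⟨k, l⟩ | ⟨k, l⟩ | ⟨k, l⟩ | ⟨k, l, m⟩ | ⟨k, l, y, m⟩
      · exact ⟨_, l ▸ hai, .inl ⟨k, rfl⟩⟩
      · exact ⟨a₀, h0, .inr (.inl ⟨k, l _ h0 _ hai⟩)⟩
      · exact ⟨a₀, h0, .inr (.inr (.inl ⟨k, l _ hai _ h0⟩))⟩
      · exact ⟨_, l ▸ hai, .inr (.inr (.inr (.inl ⟨k, rfl, m _ (l ▸ hai)⟩)))⟩
      · obtain ⟨b', hb'⟩ := hφ y
        exact ⟨_, l ▸ hai, .inr (.inr (.inr (.inr ⟨k, rfl, _, m _ hb' _ (l ▸ hai)⟩)))⟩
    refine hf.step t ht (fun κ => Function.update a t.2.2.1 a₀ κ / 4) _ _ _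
      (h _ (fun κ hκ => ?_) b hb) (he b hb) (hs c hc) (by simpa using h2)
      fun κ _ hn => by simp [hn]
    by_cases hn : κ = t.2.2.1
    · rw [hn, Function.update_self]; exact h1
    · rw [Function.update_of_ne hn, ← ho κ hκ hn]; exact ha κ hκ
  halt := fun x e h he => by
    obtain ⟨b, hb⟩ := hφ e
    exact hf.halt _ _ (h (fun κ => (hφ (x κ)).some) (fun κ _ => (hφ _).some_mem) b hb) (he b hb)

theorem pw_noWalk (hw : NoWalk f) (hφ : ∀ x, (φ x).Nonempty) : NoWalk (pw P f φ) := by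
  intro x y hx hxy hy
  have : ReflTransGen f.E ((hφ x).some / 4) ((hφ y).some / 4) := by
    clear hy
    induction hxy with
    | refl => exact .refl
    | tail _ e ih => exact ih.tail (e _ (hφ _).some_mem _ (hφ _).some_mem)
  exact hw _ _ (hx _ (hφ _).some_mem) this (hy _ (hφ _).some_mem)

theorem rel_pw (hP : WF P) (hφ : ∀ x, (φ x).Nonempty) {i : ℕ} {X : ℕ → ℕ} :
    rel (pw P f φ) i X ↔ ∀ B : ℕ → ℕ, (∀ κ < P.d + 1, B κ ∈ φ (X κ)) → rel f i fun κ => B κ / 4 := by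
  have hd := hP.d
  obtain rfl | rfl | rfl | rfl | ⟨q, rfl⟩ := blk_cases i
  · simp [rel0]
  · simp only [rel1]
    refine ⟨fun h B hB => h _ (hB 0 (by omega)) _ (hB 1 (by omega)), fun h a ha b hb => ?_⟩
    refine h (fun κ => if κ = 0 then a else if κ = 1 then b else (hφ (X κ)).some) fun κ _ => ?_
    split_ifs with h0 h1
    · rw [h0]; exact ha
    · rw [h1]; exact hb
    · exact (hφ _).some_mem
  · simp only [rel2]
    refine ⟨fun h B hB => h _ (hB 0 (by omega)), fun h a ha => ?_⟩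
    refine h (fun κ => if κ = 0 then a else (hφ (X κ)).some) fun κ _ => ?_
    split_ifs with h0
    · rw [h0]; exact ha
    · exact (hφ _).some_mem
  · simp only [rel3]
    refine ⟨fun h B hB => h _ (hB 0 (by omega)), fun h a ha => ?_⟩
    refine h (fun κ => if κ = 0 then a else (hφ (X κ)).some) fun κ _ => ?_
    split_ifs with h0
    · rw [h0]; exact ha
    · exact (hφ _).some_mem
  · simp only [rel4]
    refine ⟨fun h B hB => h _ (fun κ hκ => hB _ (by omega)) _ (hB 0 (by omega)),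
      fun h a ha c hc => ?_⟩
    refine h (fun κ => if κ = 0 then c else a (κ - 1)) fun κ hκ => ?_
    split_ifs with h0
    · rw [h0]; exact hc
    · obtain ⟨κ, rfl⟩ := Nat.exists_eq_succ_of_ne_zero h0
      exact ha κ (by omega)

/-- all choices are good -/
def Th (P : Par) (f : Fr) (φ : ℕ → Set ℕ) (y : ℕ → ℕ) : Prop :=
  ∀ a : ℕ → ℕ, (∀ j < P.k, a j ∈ φ (y j)) → GoodA P f a

/-- set-valued assignments reduce to single-valued ones -/
theorem power (hP : WF P) (hf : IsFr P f) (hφ : ∀ x, (φ x).Nonempty) :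
    ∃ ψ : ℕ → ℕ, (∀ x, (∀ a ∈ φ x, Pad a) → Pad (ψ x)) ∧
      ∀ y, Th P f φ y ↔ GoodA P (pw P f φ) fun j => ψ (y j) := by
  classical
  obtain ⟨ψ, hV, hP', hT⟩ : ∃ ψ : ℕ → ℕ, (∀ x, (Vx (ψ x) ↔ ∀ a ∈ φ x, Vx a) ∧ (Vx (ψ x) → ψ x / 4 = x)) ∧
      (∀ x, Pad (ψ x) ↔ ∀ a ∈ φ x, Pad a) ∧
      ∀ x, ∀ j < P.k, ((ψ x % 4 = 3 ∧ ψ x / 8 = j) ↔ ∀ a ∈ φ x, a % 4 = 3 ∧ a / 8 = j) ∧
        (ψ x % 4 = 3 ∧ ψ x / 8 = j → (ψ x % 8 = 3 ↔ 8 * j + 7 ∉ φ x)) := by
    refine ⟨fun x => if ∀ a ∈ φ x, Vx a then 4 * x else if ∀ a ∈ φ x, Pad a then 1 else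
      if ∀ a ∈ φ x, a % 4 = 3 ∧ a / 8 = (hφ x).some / 8 then
        8 * ((hφ x).some / 8) + (if 8 * ((hφ x).some / 8) + 7 ∈ φ x then 7 else 3)
      else 8 * P.k + 3, fun x => ?_, fun x => ?_, fun x j hj => ?_⟩
    all_goals
      have h0 := (hφ x).some_mem
      beta_reduce
      generalize (hφ x).some = a₀ at h0 ⊢
    · split_ifs with h1 h2 h3 h4 <;> simp only [Vx] at h1 ⊢
      · exact ⟨iff_of_true (by omega) h1, fun _ => by omega⟩
      all_goals exact ⟨iff_of_false (by omega) h1, fun _ => by omega⟩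
    · split_ifs with h1 h2 h3 h4
      · refine iff_of_false (by unfold Pad; omega) fun h => ?_
        have := h1 _ h0; have := h _ h0
        unfold Pad Vx at *; omega
      · exact iff_of_true (.inl rfl) h2
      all_goals exact iff_of_false (by unfold Pad; omega) h2
    · split_ifs with h1 h2 h3 h4
      · refine ⟨iff_of_false (by omega) fun h => ?_, fun h => by omega⟩
        have := h1 _ h0; have := h _ h0
        unfold Vx at *; omega
      · refine ⟨iff_of_false (by omega) fun h => ?_, fun h => by omega⟩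
        have := h2 _ h0; have := h _ h0
        unfold Pad at *; omega
      · refine ⟨⟨fun h a ha => ?_, fun h => ?_⟩, fun h => iff_of_false (by omega) ?_⟩
        · have := h3 a ha; omega
        · have := h _ h0; omega
        · rw [show j = a₀ / 8 by omega]; exact not_not.mpr h4
      · refine ⟨⟨fun h a ha => ?_, fun h => ?_⟩, fun h => iff_of_true (by omega) ?_⟩
        · have := h3 a ha; omega
        · have := h _ h0; omega
        · rw [show j = a₀ / 8 by omega]; exact h4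
      · refine ⟨iff_of_false (by omega) fun h => h3 fun a ha => ?_, fun h => by omega⟩
        have := h _ ha; have := h _ h0; omega
  have hf' := pw_isFr hP hf hφ
  refine ⟨ψ, fun x => (hP' x).mpr, fun y => ⟨fun h => ?_, fun h a ha => ?_⟩⟩
  · set a₀ : ℕ → ℕ := fun j => (hφ (y j)).some with ha₀
    have m₀ : ∀ j, a₀ j ∈ φ (y j) := fun j => (hφ _).some_mem
    have hu : ∀ j, ∀ b ∈ φ (y j), GoodA P f (Function.update a₀ j b) := by
      refine fun j b hb => h _ fun j' _ => ?_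
      by_cases e : j' = j
      · rw [e, Function.update_self]; exact hb
      · rw [Function.update_of_ne e]; exact m₀ _
    have hk := two_le_k (P := P)
    have ot : ∀ j, ∃ j' < P.k, j' ≠ j := fun j => by
      by_cases h0 : j = 0
      · exact ⟨1, by omega, by omega⟩
      · exact ⟨0, by omega, by omega⟩
    rcases h a₀ fun j _ => m₀ j with h1 | h1
    · have h3 : ∀ j < P.k, a₀ j % 4 ≠ 3 := by
        intro j hj
        obtain ⟨i, hi, κ, hκ, rfl⟩ := pos_split hj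
        exact (h1 i hi).kind hκ
      refine .inl fun i hi => ?_
      have hb : ∀ κ < P.d + 1, ∀ b ∈ φ (y (i * (P.d + 1) + κ)), ∃ κ' < P.d + 1,
          (Pad b ∧ Pad (blk P a₀ i κ')) ∨ (Vx b ∧ Vx (blk P a₀ i κ')) := by
        intro κ hκ b hb
        obtain ⟨j', h4, h5⟩ := ot (i * (P.d + 1) + κ)
        obtain ⟨κ', h6, h7⟩ : ∃ κ' < P.d + 1, κ' ≠ κ := by
          have := hP.d
          by_cases h0 : κ = 0
          · exact ⟨1, by omega, by omega⟩
          · exact ⟨0, by omega, by omega⟩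
        have h8 := (hu _ b hb).blocks h4 (by rw [Function.update_of_ne h5]; exact h3 _ h4) i hi
        have e1 : blk P (Function.update a₀ (i * (P.d + 1) + κ) b) i κ = b := by simp [blk]
        have e2 : blk P (Function.update a₀ (i * (P.d + 1) + κ) b) i κ' = blk P a₀ i κ' := by
          simp only [blk]; rw [Function.update_of_ne (by omega)]
        refine ⟨κ', h6, ?_⟩
        rcases h8 with h8 | ⟨h8, -⟩
        · exact .inl ⟨e1 ▸ h8 κ hκ, e2 ▸ h8 κ' h6⟩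
        · exact .inr ⟨e1 ▸ h8 κ hκ, e2 ▸ h8 κ' h6⟩
      rcases h1 i hi with h2 | ⟨h2, -⟩
      · refine .inl fun κ hκ => (hP' _).mpr fun b hb' => ?_
        obtain ⟨κ', h4, h5⟩ := hb κ hκ b hb'
        have := h2 κ' h4
        unfold Pad Vx at *; omega
      · have hv : ∀ κ < P.d + 1, ∀ b ∈ φ (y (i * (P.d + 1) + κ)), Vx b := by
          intro κ hκ b hb'
          obtain ⟨κ', h4, h5⟩ := hb κ hκ b hb'
          have := h2 κ' h4
          unfold Pad Vx at *; omega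
        refine .inr ⟨fun κ hκ => (hV _).1.mpr (hv κ hκ), rel_cong hP hf'
          (B := blk P y i) (fun κ hκ => ((hV _).2 ((hV _).1.mpr (hv κ hκ))).symm) ?_⟩
        refine (rel_pw hP hφ).mpr fun B hB => ?_
        have e : ∀ κ < P.d + 1, blk P (fun j => if j / (P.d + 1) = i then B (j % (P.d + 1)) else a₀ j) i κ = B κ := by
          intro κ hκ
          simp only [blk, pos_div hκ, pos_mod hκ, if_true]
        have b0 : Vx (B 0) := hv 0 (by omega) _ (hB 0 (by omega))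
        have h9 := (h (fun j => if j / (P.d + 1) = i then B (j % (P.d + 1)) else a₀ j) fun j hj => by
          split_ifs with h0
          · have := hB (j % (P.d + 1)) (Nat.mod_lt _ (by omega))
            unfold blk at this
            rwa [← h0, Nat.div_add_mod'] at this
          · exact m₀ j).blocks (pos_lt hi (show 0 < P.d + 1 by omega)) (by
            have := e 0 (by omega)
            unfold blk at this
            beta_reduce at this ⊢
            rw [this]; unfold Vx at b0; omega) i hi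
        rcases h9.cong hP hf e with h9 | h9
        · have := h9 0 (by omega)
          unfold Pad Vx at *; omega
        · exact h9.2
    · have ht : ∀ j < P.k, ∀ b ∈ φ (y j), b % 4 = 3 ∧ b / 8 = j := by
        intro j hj b hb
        obtain ⟨j', h4, h5⟩ := ot j
        have := ((hu j b hb).typed h4 (by rw [Function.update_of_ne h5]; exact (h1.1 _ h4).1)).1 j hj
        rwa [Function.update_self] at this
      refine .inr ⟨fun j hj => (hT _ j hj).1.mpr (ht j hj), ?_⟩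
      by_contra hc
      push Not at hc
      have h7 : ∀ j < P.k, 8 * j + 7 ∈ φ (y j) := fun j hj => by
        have := hc j hj
        rw [Ne, (hT _ j hj).2 ((hT _ j hj).1.mpr (ht j hj))] at this
        exact not_not.mp this
      obtain ⟨-, j, -, h8⟩ := (h _ h7).typed (j := 0) (by omega) (by omega)
      beta_reduce at h8
      omega
  · rcases h with h | ⟨h, j, hj, h3⟩
    · refine .inl fun i hi => ?_
      rcases h i hi with h1 | ⟨h1, h2⟩
      · exact .inl fun κ hκ => (hP' _).mp (h1 κ hκ) _ (ha _ (pos_lt hi hκ))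
      · refine .inr ⟨fun κ hκ => (hV _).1.mp (h1 κ hκ) _ (ha _ (pos_lt hi hκ)), ?_⟩
        exact (rel_pw hP hφ).mp (rel_cong hP hf' (B' := blk P y i)
          (fun κ hκ => (hV _).2 (h1 κ hκ)) h2) _ fun κ hκ => ha _ (pos_lt hi hκ)
    · refine .inr ⟨fun j hj => (hT _ j hj).1.mp (h j hj) _ (ha j hj), j, hj, ?_⟩
      have h4 := ((hT _ j hj).2 (h j hj)).mp h3
      have h5 := (hT _ j hj).1.mp (h j hj) _ (ha j hj)
      have h6 : a j ≠ 8 * j + 7 := fun e => h4 (e ▸ ha j hj)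
      omega

end Pool.Agent.P.MP_485d6e_al.U
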