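import Pool.Agent.P.MP_485d6e_al.U.Good

/-! Completeness: a set of tuples of variables that is closed under bounded consequences and has
no live walk is cut out by the finite frames. -/

set_option autoImplicit false

namespace Pool.Agent.P.MP_485d6e_al.U

open Relation

/-- closure under the consequences with at most `N` premises that hold in the frames of `C` -/
def Cons (P : Par) (C : Fr → Prop) (p N : ℕ) (G : (ℕ → ℕ) → Prop) : Prop :=
  ∀ (L : List (ℕ → ℕ)) (y : ℕ → ℕ), L.length ≤ N → (∀ u ∈ L, G u) →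
    (∀ f, C f → ∀ ψ : ℕ → ℕ, Pad (ψ p) → (∀ u ∈ L, GoodA P f fun j => ψ (u j)) →
      GoodA P f fun j => ψ (y j)) → G y

structure Ctx (P : Par) (C : Fr → Prop) (p N : ℕ) (G : (ℕ → ℕ) → Prop) : Prop where
  wf : WF P
  fr : ∀ f, C f → IsFr P f
  cons : Cons P C p N G
  big : P.Q + 3 * P.d + 20 ≤ N

def cns (z : ℕ) (x : ℕ → ℕ) : ℕ → ℕ
  | 0 => z
  | κ + 1 => x κ

/-- the tuple `B` in block `i`, padded with `p` -/
def F (P : Par) (p : ℕ) (G : (ℕ → ℕ) → Prop) (i : ℕ) (B : ℕ → ℕ) : Prop := G (pad P p i B)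

def Eqv (P : Par) (p : ℕ) (G : (ℕ → ℕ) → Prop) (x y : ℕ) : Prop := F P p G 0 (cns x fun _ => y)

def Same (a b : ℕ) : Prop := (Pad a ∧ Pad b) ∨ (Vx a ∧ Vx b)

variable {P : Par} {C : Fr → Prop} {p N : ℕ} {G : (ℕ → ℕ) → Prop}

theorem ok_eqv (hP : WF P) {f : Fr} {ψ : ℕ → ℕ} {x y : ℕ} :
    BlkOK P f 0 (fun κ => ψ (cns x (fun _ => y) κ)) ↔ Same (ψ x) (ψ y) := by
  have := hP.d
  constructor
  · rintro (h | ⟨h, -⟩)
    · exact .inl ⟨h 0 (by omega), h 1 (by omega)⟩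
    · exact .inr ⟨h 0 (by omega), h 1 (by omega)⟩
  · rintro (h | h)
    · exact .inl fun κ _ => by cases κ; exacts [h.1, h.2]
    · exact .inr ⟨fun κ _ => by cases κ; exacts [h.1, h.2], rel0⟩

theorem BlkOK.same {f : Fr} {i : ℕ} {B : ℕ → ℕ} (h : BlkOK P f i B) {κ κ' : ℕ} (h1 : κ < P.d + 1)
    (h2 : κ' < P.d + 1) : Same (B κ) (B κ') := by
  rcases h with h | ⟨h, -⟩
  · exact .inl ⟨h _ h1, h _ h2⟩
  · exact .inr ⟨h _ h1, h _ h2⟩

namespace Ctx

variable (X : Ctx P C p N G)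
include X

theorem fact (L : List (ℕ × (ℕ → ℕ))) (hL : L.length ≤ N)
    (h1 : ∀ t ∈ L, t.1 < P.Q + 4 ∧ F P p G t.1 t.2) {i : ℕ} {B : ℕ → ℕ} (hi : i < P.Q + 4)
    (h2 : ∀ f, C f → ∀ ψ : ℕ → ℕ, Pad (ψ p) → (∀ t ∈ L, BlkOK P f t.1 fun κ => ψ (t.2 κ)) →
      BlkOK P f i fun κ => ψ (B κ)) : F P p G i B := by
  refine X.cons (L.map fun t => pad P p t.1 t.2) _ (by simpa using hL) (fun u hu => ?_)
    fun f hf ψ hp h => ?_
  · obtain ⟨t, ht, rfl⟩ := List.mem_map.mp hu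
    exact (h1 t ht).2
  · exact (good_pad X.wf (X.fr f hf) hp hi).mpr (h2 f hf ψ hp fun t ht =>
      (good_pad X.wf (X.fr f hf) hp (h1 t ht).1).mp (h _ (List.mem_map.mpr ⟨t, ht, rfl⟩)))

theorem eqv_of {i : ℕ} {B : ℕ → ℕ} (hi : i < P.Q + 4) (h : F P p G i B) {κ κ' : ℕ}
    (h1 : κ < P.d + 1) (h2 : κ' < P.d + 1) : Eqv P p G (B κ) (B κ') :=
  X.fact [(i, B)] (by have := X.big; simp; omega) (by simpa using ⟨hi, h⟩) (by omega)
    fun _ _ _ _ h => (ok_eqv X.wf).mpr ((h _ List.mem_cons_self).same h1 h2)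

theorem symm {x y : ℕ} (h : Eqv P p G x y) : Eqv P p G y x :=
  X.eqv_of (κ := 1) (κ' := 0) (by omega) h (by have := X.wf.d; omega) (by omega)

theorem left {x y : ℕ} (h : Eqv P p G x y) : Eqv P p G x x :=
  X.eqv_of (κ := 0) (κ' := 0) (by omega) h (by omega) (by omega)

theorem trans {x y z : ℕ} (h : Eqv P p G x y) (h' : Eqv P p G y z) : Eqv P p G x z := by
  refine X.fact [(0, cns x fun _ => y), (0, cns y fun _ => z)] (by have := X.big; simp; omega)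
    (by simpa using ⟨h, h'⟩) (by omega) fun f _ ψ _ h => (ok_eqv X.wf).mpr ?_
  have h1 := (ok_eqv X.wf).mp (h _ List.mem_cons_self)
  have h2 := (ok_eqv X.wf).mp (h _ (List.mem_cons_of_mem _ List.mem_cons_self))
  unfold Same Pad Vx at *
  omega

theorem pp : Eqv P p G p p :=
  X.fact [] (by simp) (by simp) (by omega) fun _ _ _ h _ => (ok_eqv X.wf).mpr (.inl ⟨h, h⟩)

theorem split {u : ℕ → ℕ} (hu : G u) {j : ℕ} (hj : j < P.k) (h : Eqv P p G (u j) (u j)) {i : ℕ}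
    (hi : i < P.Q + 4) : F P p G i (blk P u i) := by
  refine X.cons [u, pad P p 0 (cns (u j) fun _ => u j)] _ (by have := X.big; simp; omega)
    (by simpa using ⟨hu, h⟩) fun f hf ψ hp h => (good_pad X.wf (X.fr f hf) hp hi).mpr ?_
  have h2 := (ok_eqv X.wf).mp ((good_pad X.wf (X.fr f hf) hp (by omega)).mp
    (h _ (List.mem_cons_of_mem _ List.mem_cons_self)))
  refine (h _ List.mem_cons_self).blocks hj ?_ i hi
  unfold Same Pad Vx at *
  omega

theorem spread {u : ℕ → ℕ} (hu : G u) {j j' : ℕ} (hj : j < P.k) (h : Eqv P p G (u j) (u j))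
    (hj' : j' < P.k) : Eqv P p G (u j') (u j') := by
  obtain ⟨i, hi, κ, hκ, rfl⟩ := pos_split hj'
  exact X.eqv_of hi (X.split hu hj h hi) hκ hκ

theorem twice {u u' : ℕ → ℕ} (hu : G u) (hu' : G u') {j j' : ℕ} (hj : j < P.k) (hj' : j' < P.k)
    (hn : j ≠ j') (e : u j = u' j') : Eqv P p G (u j) (u j) := by
  refine X.cons [u, u'] _ (by have := X.big; simp; omega) (by simpa using ⟨hu, hu'⟩)
    fun f hf ψ hp h => (good_pad X.wf (X.fr f hf) hp (by omega)).mpr ((ok_eqv X.wf).mpr ?_)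
  by_cases h3 : ψ (u j) % 4 = 3
  · have h1 := ((h _ List.mem_cons_self).typed hj h3).1 j hj
    have h2 := ((h _ (List.mem_cons_of_mem _ List.mem_cons_self)).typed hj' (e ▸ h3)).1 j' hj'
    beta_reduce at h1 h2
    rw [← e] at h2
    omega
  · unfold Same Pad Vx
    omega

theorem join {y : ℕ → ℕ} (h : ∀ i < P.Q + 4, F P p G i (blk P y i)) : G y := by
  refine X.cons ((List.range (P.Q + 4)).map fun i => pad P p i (blk P y i)) _
    (by have := X.big; simp; omega) (fun u hu => ?_) fun f hf ψ hp h => .inl fun i hi => ?_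
  · obtain ⟨i, hi, rfl⟩ := List.mem_map.mp hu
    exact h i (List.mem_range.mp hi)
  · exact (good_pad X.wf (X.fr f hf) hp hi).mp
      (h _ (List.mem_map.mpr ⟨i, List.mem_range.mpr hi, rfl⟩))

/-- reasoning inside the class of `x₀` -/
theorem cgen {x₀ : ℕ} (h0 : Eqv P p G x₀ x₀) (L : List (ℕ × (ℕ → ℕ))) (xs : List ℕ)
    (hL : 2 * L.length + xs.length + 1 ≤ N)
    (h1 : ∀ t ∈ L, t.1 < P.Q + 4 ∧ F P p G t.1 t.2 ∧ Eqv P p G (t.2 0) x₀)
    (h2 : ∀ x ∈ xs, Eqv P p G x x₀) {i : ℕ} {B : ℕ → ℕ} (hi : i < P.Q + 4)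
    (h3 : ∀ f, C f → ∀ ψ : ℕ → ℕ, Pad (ψ p) →
      ((Pad (ψ x₀) ∧ ∀ x ∈ xs, Pad (ψ x)) ∨ (Vx (ψ x₀) ∧ (∀ x ∈ xs, Vx (ψ x)) ∧
        ∀ t ∈ L, rel f t.1 fun κ => ψ (t.2 κ) / 4)) → BlkOK P f i fun κ => ψ (B κ)) :
    F P p G i B := by
  refine X.fact (L ++ ((x₀ :: (xs ++ L.map fun t => t.2 0)).map fun x => (0, cns x fun _ => x₀)))
    (by simp; omega) (fun t ht => ?_) hi fun f hf ψ hp h => h3 f hf ψ hp ?_
  · rcases List.mem_append.mp ht with ht | ht
    · exact ⟨(h1 t ht).1, (h1 t ht).2.1⟩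
    · obtain ⟨x, hx, rfl⟩ := List.mem_map.mp ht
      refine ⟨by simp, ?_⟩
      rcases List.mem_cons.mp hx with rfl | hx
      · exact h0
      rcases List.mem_append.mp hx with hx | hx
      · exact h2 x hx
      · obtain ⟨t', ht', rfl⟩ := List.mem_map.mp hx
        exact (h1 t' ht').2.2
  · have k : ∀ x ∈ x₀ :: (xs ++ L.map fun t => t.2 0), Same (ψ x) (ψ x₀) := fun x hx =>
      (ok_eqv X.wf).mp (h _ (List.mem_append_right _ (List.mem_map.mpr ⟨x, hx, rfl⟩)))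
    have k1 : ∀ x ∈ xs, Same (ψ x) (ψ x₀) := fun x hx => k x (by simp [hx])
    rcases k x₀ List.mem_cons_self with ⟨a, -⟩ | ⟨a, -⟩
    · refine .inl ⟨a, fun x hx => ?_⟩
      have := k1 x hx
      unfold Same Pad Vx at *; omega
    · refine .inr ⟨a, fun x hx => ?_, fun t ht => ?_⟩
      · have := k1 x hx
        unfold Same Pad Vx at *; omega
      · rcases h t (List.mem_append_left _ ht) with b | b
        · have := b 0 (by omega)
          have := k (t.2 0) (List.mem_cons_of_mem _ (List.mem_append_right _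
            (List.mem_map.mpr ⟨t, ht, rfl⟩)))
          unfold Same Pad Vx at *; beta_reduce at *; omega
        · exact b.2

theorem crule {x₀ : ℕ} (L : List (ℕ × (ℕ → ℕ))) (hL : 2 * L.length + P.d + 2 ≤ N)
    (h1 : ∀ t ∈ L, t.1 < P.Q + 4 ∧ F P p G t.1 t.2 ∧ Eqv P p G (t.2 0) x₀)
    {i : ℕ} {B : ℕ → ℕ} (hi : i < P.Q + 4) (h2 : ∀ κ < P.d + 1, Eqv P p G (B κ) x₀)
    (h3 : ∀ f, C f → ∀ g : ℕ → ℕ, (∀ t ∈ L, rel f t.1 fun κ => g (t.2 κ)) →
      rel f i fun κ => g (B κ)) : F P p G i B := by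
  have hm : ∀ κ < P.d + 1, B κ ∈ (List.range (P.d + 1)).map B := fun κ hκ =>
    List.mem_map.mpr ⟨κ, List.mem_range.mpr hκ, rfl⟩
  refine X.cgen (X.left (X.symm (h2 0 (by omega)))) L ((List.range (P.d + 1)).map B)
    (by simp; omega) h1 (fun x hx => ?_) hi fun f hf ψ _ h => ?_
  · obtain ⟨κ, hκ, rfl⟩ := List.mem_map.mp hx
    exact h2 κ (List.mem_range.mp hκ)
  · rcases h with ⟨-, h⟩ | ⟨-, h, h'⟩
    · exact .inl fun κ hκ => h _ (hm κ hκ)
    · exact .inr ⟨fun κ hκ => h _ (hm κ hκ), h3 f hf (fun x => ψ x / 4) h'⟩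

theorem cdead {x₀ : ℕ} (h0 : Eqv P p G x₀ x₀) (L : List (ℕ × (ℕ → ℕ)))
    (hL : 2 * L.length + 1 ≤ N)
    (h1 : ∀ t ∈ L, t.1 < P.Q + 4 ∧ F P p G t.1 t.2 ∧ Eqv P p G (t.2 0) x₀)
    (h3 : ∀ f, C f → ∀ g : ℕ → ℕ, ¬ ∀ t ∈ L, rel f t.1 fun κ => g (t.2 κ)) : Eqv P p G x₀ p := by
  refine X.cgen h0 L [] (by simpa using hL) h1 (by simp) (by omega) fun f hf ψ hp h => ?_
  rcases h with ⟨h, -⟩ | ⟨-, -, h⟩
  · exact (ok_eqv X.wf).mpr (.inl ⟨h, hp⟩)
  · exact absurd h (h3 f hf fun x => ψ x / 4)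

theorem alldead {i : ℕ} {B : ℕ → ℕ} (hi : i < P.Q + 4) (h : ∀ κ < P.d + 1, Eqv P p G (B κ) p) :
    F P p G i B := by
  have hm : ∀ κ < P.d + 1, B κ ∈ (List.range (P.d + 1)).map B := fun κ hκ =>
    List.mem_map.mpr ⟨κ, List.mem_range.mpr hκ, rfl⟩
  refine X.cgen X.pp [] ((List.range (P.d + 1)).map B) (by have := X.big; simp; omega) (by simp)
    (fun x hx => ?_) hi fun f hf ψ hp h => ?_
  · obtain ⟨κ, hκ, rfl⟩ := List.mem_map.mp hx
    exact h κ (List.mem_range.mp hκ)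
  · rcases h with ⟨-, h⟩ | ⟨h, -⟩
    · exact .inl fun κ hκ => h _ (hm κ hκ)
    · unfold Pad Vx at *; omega

end Ctx

/-- the frame of the facts about the class of `x₀` -/
def tf (P : Par) (p : ℕ) (G : (ℕ → ℕ) → Prop) (x₀ : ℕ) : Fr :=
  ⟨fun a b => Eqv P p G a x₀ ∧ F P p G 1 (cns a fun _ => b),
    fun a => Eqv P p G a x₀ ∧ F P p G 2 fun _ => a, fun a => Eqv P p G a x₀ ∧ F P p G 3 fun _ => a,
    fun q x z => q < P.Q ∧ Eqv P p G z x₀ ∧ F P p G (q + 4) (cns z x)⟩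

namespace Ctx

variable (X : Ctx P C p N G)
include X

theorem tf_E {x₀ a b : ℕ} (h : (tf P p G x₀).E a b) : Eqv P p G b x₀ :=
  X.trans (X.eqv_of (κ := 1) (κ' := 0) (by omega) h.2 (by have := X.wf.d; omega) (by omega)) h.1

theorem tf_r {x₀ q z : ℕ} {x : ℕ → ℕ} (h : (tf P p G x₀).r q x z) {κ : ℕ} (hκ : κ < P.d) :
    Eqv P p G (x κ) x₀ :=
  X.trans (X.eqv_of (κ := κ + 1) (κ' := 0) (by have := h.1; omega) h.2.2 (by omega) (by omega))
    h.2.1

theorem tf_rel {x₀ i : ℕ} {B : ℕ → ℕ} (hi : i < P.Q + 4) (h : ∀ κ < P.d + 1, Eqv P p G (B κ) x₀) :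
    F P p G i B ↔ rel (tf P p G x₀) i B := by
  have hb := X.big
  have hd := X.wf.d
  have h0 := h 0 (by omega)
  have key : ∀ B' : ℕ → ℕ, (∀ κ < P.d + 1, Eqv P p G (B' κ) x₀) →
      (∀ (f : Fr) (g : ℕ → ℕ), (rel f i fun κ => g (B κ)) ↔ rel f i fun κ => g (B' κ)) →
      (F P p G i B ↔ F P p G i B') := fun B' h' e =>
    ⟨fun a => X.crule [(i, B)] (by simp; omega) (by simpa using ⟨hi, a, h0⟩) hi h'
      fun f _ g b => (e f g).mp (b _ List.mem_cons_self),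
    fun a => X.crule [(i, B')] (by simp; omega) (by simpa using ⟨hi, a, h' 0 (by omega)⟩) hi h
      fun f _ g b => (e f g).mpr (b _ List.mem_cons_self)⟩
  obtain rfl | rfl | rfl | rfl | ⟨q, rfl⟩ := blk_cases i
  · exact iff_of_true (X.crule [] (by simp; omega) (by simp) hi h fun _ _ _ _ => rel0) rel0
  · rw [rel1, key (cns (B 0) fun _ => B 1) (fun κ _ => by cases κ; exacts [h0, h 1 (by omega)])
      fun f g => by rw [rel1, rel1]; rfl]
    exact ⟨fun a => ⟨h0, a⟩, fun a => a.2⟩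
  · rw [rel2, key (fun _ => B 0) (fun κ _ => h0) fun f g => by rw [rel2, rel2]]
    exact ⟨fun a => ⟨h0, a⟩, fun a => a.2⟩
  · rw [rel3, key (fun _ => B 0) (fun κ _ => h0) fun f g => by rw [rel3, rel3]]
    exact ⟨fun a => ⟨h0, a⟩, fun a => a.2⟩
  · have e : (cns (B 0) fun κ => B (κ + 1)) = B := by funext κ; cases κ <;> rfl
    rw [rel4]
    exact ⟨fun a => ⟨by omega, h0, by rwa [e]⟩, fun a => e ▸ a.2.2⟩

theorem tf_isFr {x₀ : ℕ} (hx : ¬ Eqv P p G x₀ p) : IsFr P (tf P p G x₀) := by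
  have hb := X.big
  have hQ := X.wf.Q
  refine ⟨fun q x x' z h a => ⟨a.1, a.2.1, ?_⟩, fun x z h a => ⟨hQ, a.1, ?_⟩,
    fun q x z z' h e => ⟨h.1, X.tf_E e, ?_⟩,
    fun t ht x x' e s h he hs hl ho => ⟨(X.wf.tr t ht).2.1, hs.1, ?_⟩, fun x e h he => hx ?_⟩
  · have : pad P p (q + 4) (cns z x') = pad P p (q + 4) (cns z x) := by
      funext j
      unfold pad
      have := Nat.mod_lt j (show 0 < P.d + 1 by omega)
      generalize j % (P.d + 1) = κ at this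
      cases κ with
      | zero => rfl
      | succ κ => simp only [cns, h κ (by omega)]
    unfold F
    rw [this]
    exact a.2.2
  · refine X.crule (x₀ := x₀) ((2, fun _ => z) :: (List.range P.d).map fun κ => (2, fun _ => x κ))
      (by simp; omega) (fun t ht => ?_) (by omega) (fun κ hκ => ?_) fun f hf g k => ?_
    · rcases List.mem_cons.mp ht with rfl | ht
      · exact ⟨by simp, a.2, a.1⟩
      · obtain ⟨κ, hκ, rfl⟩ := List.mem_map.mp ht
        exact ⟨by simp, (h κ (List.mem_range.mp hκ)).2, (h κ (List.mem_range.mp hκ)).1⟩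
    · cases κ with
      | zero => exact a.1
      | succ κ => exact (h κ (by omega)).1
    · exact rel4.mpr ((X.fr f hf).init _ _ (fun κ hκ => rel2.mp (k _ (List.mem_cons_of_mem _
        (List.mem_map.mpr ⟨κ, List.mem_range.mpr hκ, rfl⟩)))) (rel2.mp (k _ List.mem_cons_self)))
  · have := h.1
    refine X.crule (x₀ := x₀) [(q + 4, cns z x), (1, cns z fun _ => z')] (by simp; omega)
      (by simpa using ⟨⟨h.1, h.2.2, h.2.1⟩, e.2, e.1⟩) (by omega) (fun κ hκ => ?_)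
      fun f hf g k => ?_
    · cases κ with
      | zero => exact X.tf_E e
      | succ κ => exact X.tf_r h (by omega)
    · exact rel4.mpr ((X.fr f hf).slide _ _ _ _ (rel4.mp (k _ List.mem_cons_self))
        (rel1.mp (k _ (List.mem_cons_of_mem _ List.mem_cons_self))))
  · obtain ⟨h1, h2, h3⟩ := X.wf.tr t ht
    have ha := X.tf_r h h3
    obtain ⟨u, u1, u2, u3⟩ : ∃ u : ℕ × (ℕ → ℕ),
        (u.1 < P.Q + 4 ∧ F P p G u.1 u.2 ∧ Eqv P p G (u.2 0) x₀) ∧ Eqv P p G (x' t.2.2.1) x₀ ∧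
        ∀ (f : Fr) (g : ℕ → ℕ), (rel f u.1 fun κ => g (u.2 κ)) →
          Link f t.2.2.2 (g (x t.2.2.1)) (g (x' t.2.2.1)) := by
      rcases hl with ⟨k, l⟩ | ⟨k, l⟩ | ⟨k, l⟩ | ⟨k, l, m⟩ | ⟨k, l, y, m⟩
      · exact ⟨(2, fun _ => s), ⟨by simp, hs.2, hs.1⟩, l ▸ ha, fun f g _ => .inl ⟨k, by rw [l]⟩⟩
      · exact ⟨(1, _), ⟨by simp, l.2, l.1⟩, X.tf_E l, fun f g a => .inr (.inl ⟨k, rel1.mp a⟩)⟩
      · exact ⟨(1, _), ⟨by simp, l.2, l.1⟩, l.1, fun f g a => .inr (.inr (.inl ⟨k, rel1.mp a⟩))⟩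
      · exact ⟨(2, _), ⟨by simp, m.2, m.1⟩, l ▸ ha,
          fun f g a => .inr (.inr (.inr (.inl ⟨k, by rw [l], rel2.mp a⟩)))⟩
      · exact ⟨(1, _), ⟨by simp, m.2, m.1⟩, l ▸ ha,
          fun f g a => .inr (.inr (.inr (.inr ⟨k, by rw [l], _, rel1.mp a⟩)))⟩
    refine X.crule (x₀ := x₀) [u, (t.1 + 4, cns e x), (3, fun _ => e), (2, fun _ => s)]
      (by simp; omega) (fun v hv => ?_) (by omega) (fun κ hκ => ?_) fun f hf g k => ?_
    · simp only [List.mem_cons, List.not_mem_nil, or_false] at hv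
      rcases hv with rfl | rfl | rfl | rfl
      · exact u1
      · exact ⟨by simpa using h1, h.2.2, h.2.1⟩
      · exact ⟨by simp, he.2, he.1⟩
      · exact ⟨by simp, hs.2, hs.1⟩
    · cases κ with
      | zero => exact hs.1
      | succ κ =>
        by_cases hn : κ = t.2.2.1
        · exact hn ▸ u2
        · have := X.tf_r h (κ := κ) (by omega)
          rwa [← ho κ (by omega) hn] at this
    · exact rel4.mpr ((X.fr f hf).step t ht (fun κ => g (x κ)) (fun κ => g (x' κ)) (g e) (g s)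
        (rel4.mp (k (t.1 + 4, cns e x) (by simp))) (rel3.mp (k (3, fun _ => e) (by simp)))
        (rel2.mp (k (2, fun _ => s) (by simp))) (u3 f g (k u (by simp)))
        fun κ hκ hn => by rw [ho κ hκ hn])
  · exact X.cdead (X.left (X.symm he.1)) [(P.h + 4, cns e x), (3, fun _ => e)] (by simp; omega)
      (by simpa using ⟨⟨h.1, h.2.2, h.2.1⟩, he.2, he.1⟩) fun f hf g k =>
      (X.fr f hf).halt _ _ (rel4.mp (k _ List.mem_cons_self))
        (rel3.mp (k _ (List.mem_cons_of_mem _ List.mem_cons_self)))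

end Ctx

theorem Hom.rel {f f' : Fr} {g : ℕ → ℕ} (h : Hom f f' g) {i : ℕ} {B : ℕ → ℕ} (a : rel f i B) :
    rel f' i fun κ => g (B κ) := by
  obtain rfl | rfl | rfl | rfl | ⟨q, rfl⟩ := blk_cases i
  · exact rel0
  · exact rel1.mpr (h.E _ _ (rel1.mp a))
  · exact rel2.mpr (h.S _ (rel2.mp a))
  · exact rel3.mpr (h.En _ (rel3.mp a))
  · exact rel4.mpr (h.r _ _ _ (rel4.mp a))

theorem sep_rel (hP : WF P) {f : Fr} (hf : IsFr P f) (hw : NoWalk f) (hQ : ∀ x z, ¬ f.r P.Q x z)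
    {i : ℕ} (hi : i < P.Q + 4) (B : ℕ → ℕ) :
    ∃ μ g, μ < 2 * P.Q + 2 ∧ (∀ v, g v < 2 ^ (5 + 3 * P.d)) ∧ Hom f (H P μ) g ∧
      ((rel (H P μ) i fun κ => g (B κ)) → rel f i B) := by
  obtain ⟨μ, g, a, b, c, -, d, e, e'⟩ := sep hP hf hw P.Q (fun _ => B 1) 0 (hQ _ _)
  obtain rfl | rfl | rfl | rfl | ⟨q, rfl⟩ := blk_cases i
  · exact ⟨μ, g, a, b, c, fun _ => rel0⟩
  · exact ⟨μ, g, a, b, c, fun h => rel1.mpr (d _ (rel1.mp h))⟩
  · exact ⟨μ, g, a, b, c, fun h => rel2.mpr (e _ (rel2.mp h))⟩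
  · exact ⟨μ, g, a, b, c, fun h => rel3.mpr (e' _ (rel3.mp h))⟩
  · by_cases h : rel f (q + 4) B
    · exact ⟨μ, g, a, b, c, fun _ => h⟩
    · obtain ⟨μ, g, a, b, c, d, -⟩ := sep hP hf hw q _ _ (mt rel4.mpr h)
      exact ⟨μ, g, by omega, b, c, fun h => absurd (rel4.mp h) d⟩

theorem Ctx.complete (X : Ctx P C p N G) (hw : ∀ x₀, ¬ Eqv P p G x₀ p → NoWalk (tf P p G x₀))
    {y : ℕ → ℕ} (hy : ¬ G y) :
    ∃ (μ : ℕ) (ψ : ℕ → ℕ), ψ p = 4 * μ + 2 ∧ (∀ x, x ≠ p → ψ x % 4 ≠ 2) ∧ (∀ x, ψ x < P.L) ∧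
      (∀ u, G u → GoodA P (H P μ) fun j => ψ (u j)) ∧ ¬ GoodA P (H P μ) fun j => ψ (y j) := by
  classical
  obtain ⟨i, hi, hF⟩ : ∃ i < P.Q + 4, ¬ F P p G i (blk P y i) := by
    by_contra h
    push Not at h
    exact hy (X.join h)
  obtain ⟨κ₀, hκ₀, hD⟩ : ∃ κ < P.d + 1, ¬ Eqv P p G (blk P y i κ) p := by
    by_contra h
    push Not at h
    exact hF (X.alldead hi h)
  have hL : P.L = 4 * 2 ^ (5 + 3 * P.d) + 8 * P.k + 8 * P.Q + 8 := rfl
  by_cases hc : Eqv P p G (blk P y i κ₀) (blk P y i κ₀)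
  · set x₀ := blk P y i κ₀ with hx₀
    obtain ⟨μ, g, h1, h2, h3, h4⟩ := sep_rel X.wf (X.tf_isFr hD) (hw _ hD)
      (fun x z h => absurd h.1 (lt_irrefl _)) hi (blk P y i)
    have hp : ¬ Eqv P p G p x₀ := fun h => hD (X.symm h)
    obtain ⟨ψ, a1, a2, a3, a4, a5⟩ : ∃ ψ : ℕ → ℕ, ψ p = 4 * μ + 2 ∧ (∀ x, x ≠ p → ψ x % 4 ≠ 2) ∧
        (∀ x, ψ x < P.L) ∧ (∀ x, Eqv P p G x x₀ → ψ x = 4 * g x) ∧
        ∀ x, ¬ Eqv P p G x x₀ → Pad (ψ x) := by
      refine ⟨fun x => if Eqv P p G x x₀ then 4 * g x else if x = p then 4 * μ + 2 else 1,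
        by simp [hp], fun x hx => ?_, fun x => ?_, fun x hx => by simp [hx], fun x hx => ?_⟩
      · beta_reduce; split_ifs <;> omega
      · have := h2 x
        beta_reduce; split_ifs <;> omega
      · beta_reduce; unfold Pad; split_ifs <;> omega
    have hH := H_isFr X.wf μ
    refine ⟨μ, ψ, a1, a2, a3, fun u hu => .inl fun i' hi' => ?_, fun h => ?_⟩
    · by_cases hK : ∃ κ < P.d + 1, Eqv P p G (blk P u i' κ) x₀
      · obtain ⟨κ, hκ, hK⟩ := hK
        have b1 := X.split hu (pos_lt hi' hκ) (X.left hK) hi'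
        have b2 : ∀ κ' < P.d + 1, Eqv P p G (blk P u i' κ') x₀ := fun κ' hκ' =>
          X.trans (X.eqv_of hi' b1 hκ' hκ) hK
        refine .inr ⟨fun κ' hκ' => ?_, rel_cong X.wf hH (fun κ' hκ' => ?_)
          (h3.rel ((X.tf_rel hi' b2).mp b1))⟩
        · have := a4 _ (b2 κ' hκ')
          unfold blk Vx at *; beta_reduce; omega
        · have := a4 _ (b2 κ' hκ')
          unfold blk at *; beta_reduce; omega
      · push Not at hK
        exact .inl fun κ hκ => a5 _ (hK κ hκ)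
    · have b0 := a4 _ hc
      rcases h.blocks (pos_lt hi hκ₀) (by unfold blk at hx₀; rw [← hx₀]; omega) i hi with b | b
      · have := b κ₀ hκ₀
        unfold blk at hx₀
        unfold blk Pad at this
        beta_reduce at this
        rw [← hx₀] at this
        omega
      · have b2 : ∀ κ' < P.d + 1, Eqv P p G (blk P y i κ') x₀ := by
          intro κ' hκ'
          by_contra hn
          have := a5 _ hn
          have := b.1 κ' hκ'
          unfold blk Pad Vx at *; beta_reduce at *; omega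
        refine hF ((X.tf_rel hi b2).mpr (h4 (rel_cong X.wf hH (fun κ' hκ' => ?_) b.2)))
        have := a4 _ (b2 κ' hκ')
        unfold blk at *; beta_reduce; omega
  · obtain ⟨pos, p1, p2⟩ : ∃ pos : ℕ → ℕ, (∀ x, pos x ≤ P.k) ∧
        ∀ u, G u → ∀ j < P.k, ¬ Eqv P p G (u j) (u j) → pos (u j) = j := by
      refine ⟨fun x => if h : ∃ j, j < P.k ∧ ∃ u, G u ∧ u j = x then h.choose else P.k,
        fun x => ?_, fun u hu j hj hn => ?_⟩
      · beta_reduce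
        split_ifs with h
        · exact h.choose_spec.1.le
        · exact le_rfl
      · have h : ∃ j', j' < P.k ∧ ∃ u', G u' ∧ u' j' = u j := ⟨j, hj, u, hu, rfl⟩
        beta_reduce
        rw [dif_pos h]
        obtain ⟨b1, u', b2, b3⟩ := h.choose_spec
        by_contra hne
        exact hn (X.twice hu b2 hj b1 (Ne.symm hne) b3.symm)
    obtain ⟨ψ, a1, a2, a3, a4, a5⟩ : ∃ ψ : ℕ → ℕ, ψ p = 4 * 0 + 2 ∧ (∀ x, x ≠ p → ψ x % 4 ≠ 2) ∧
        (∀ x, ψ x < P.L) ∧ (∀ x, Eqv P p G x x → Pad (ψ x)) ∧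
        ∀ x, ¬ Eqv P p G x x → ψ x % 4 = 3 ∧ ψ x / 8 = pos x ∧ (ψ x % 8 = 3 ↔ y (pos x) ≠ x) := by
      refine ⟨fun x => if Eqv P p G x x then (if x = p then 2 else 1) else
        8 * pos x + if y (pos x) = x then 7 else 3,
        by simp [X.pp], fun x hx => ?_, fun x => ?_, fun x hx => ?_, fun x hx => ?_⟩
      · beta_reduce; split_ifs <;> omega
      · have := p1 x
        beta_reduce; split_ifs <;> omega
      · beta_reduce; unfold Pad; split_ifs <;> omega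
      · beta_reduce; split_ifs <;> omega
    refine ⟨0, ψ, a1, a2, a3, fun u hu => ?_, fun h => ?_⟩
    · by_cases hK : ∃ j < P.k, Eqv P p G (u j) (u j)
      · obtain ⟨j, hj, hK⟩ := hK
        exact good_pads fun j' hj' => a4 _ (X.spread hu hj hK hj')
      · push Not at hK
        refine .inr ⟨fun j hj => ⟨(a5 _ (hK j hj)).1, (a5 _ (hK j hj)).2.1.trans
          (p2 u hu j hj (hK j hj))⟩, ?_⟩
        by_contra hn
        push Not at hn
        refine hy (X.cons [u] y (by have := X.big; simp; omega) (by simpa using hu)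
          fun f hf χ _ h => (h u List.mem_cons_self).cong X.wf (X.fr f hf) fun j hj => ?_)
        have := hn j hj
        rw [Ne, (a5 _ (hK j hj)).2.2, p2 u hu j hj (hK j hj), not_not] at this
        rw [this]
    · obtain ⟨h1, j, hj, h2⟩ := h.typed (pos_lt hi hκ₀) (a5 _ hc).1
      have h3 := h1 j hj
      beta_reduce at h2 h3
      have h4 : ¬ Eqv P p G (y j) (y j) := fun h => by
        have := a4 _ h
        unfold Pad at this; omega
      have h5 := a5 _ h4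
      rw [← h5.2.1, h3.2] at h5
      exact h5.2.2.mp h2 rfl

end Pool.Agent.P.MP_485d6e_al.U
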