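import Pool.Agent.P.MP_485d6e_al.U.FB

/-! The power semiring is not finitely based if the machine does not halt. -/

set_option autoImplicit false

namespace Pool.Agent.P.MP_485d6e_al.U

variable {P : Par} {S : Type} [Semigroup S]

/-- the variable `0` is a pad, the variable `x + 1` is the vertex `x` of the path -/
def pv (x : ℕ) : ℕ := if x = 0 then 1 else 4 * (x - 1)

theorem pv_zero : Pad (pv 0) := .inl rfl

theorem pv_succ (x : ℕ) : pv (x + 1) = 4 * x := by simp [pv]

/-- the words that are true in the path -/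
def TY (P : Par) (m : ℕ) : Set (List ℕ) :=
  {v | ∃ a, v = wd P 0 a ∧ GoodA P (Y P m) fun j => pv (a j)}

theorem exists_gap (l : List ℕ) (m : ℕ) (h : l.length ≤ m) : ∃ g, 1 ≤ g ∧ g ≤ m + 1 ∧ g ∉ l := by
  by_contra hc
  push Not at hc
  have : Finset.Icc 1 (m + 1) ⊆ l.toFinset := fun g hg =>
    List.mem_toFinset.mpr (hc g (Finset.mem_Icc.mp hg).1 (Finset.mem_Icc.mp hg).2)
  have h1 := Finset.card_le_card this
  have h2 := List.toFinset_card_le l
  rw [Nat.card_Icc] at h1
  omega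

/-- without the vertex `g` the true words are cut out by the finite frames -/
theorem gap_complete (hP : WF P) (hn : ∀ c, ¬ Reach P.tr P.h c) {m g : ℕ} (h1 : 1 ≤ g)
    (h2 : g ≤ m + 1) {y : ℕ → ℕ} (hy : ¬ GoodA P (Y P m) fun j => pv (y j))
    (hg : ∀ j < P.k, y j ≠ g) :
    ∃ (μ : ℕ) (χ : ℕ → ℕ), χ 0 = 4 * μ + 2 ∧ (∀ x, χ x < P.L) ∧
      (∀ u : ℕ → ℕ, (∀ j < P.k, u j ≠ g) → (GoodA P (Y P m) fun j => pv (u j)) →
        GoodA P (H P μ) fun j => χ (u j)) ∧ ¬ GoodA P (H P μ) fun j => χ (y j) := by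
  have hY := Y_isFr hP hn m
  set ψ : ℕ → ℕ := fun x => if x = g then 8 * P.k + 3 else pv x with hψ
  have e : ∀ x, x ≠ g → ψ x = pv x := fun x hx => if_neg hx
  have p0 : Pad (ψ 0) := by rw [e 0 (by omega)]; exact pv_zero
  have X : Ctx P (fun f => f = Y P m) 0 (P.Q + 3 * P.d + 20)
      fun y => GoodA P (Y P m) fun j => ψ (y j) :=
    ⟨hP, fun f h => h ▸ hY, fun L y _ b c => c _ rfl ψ p0 b, le_rfl⟩
  have vx : ∀ x, Vx (ψ x) → x ≠ g ∧ ψ x / 4 + 1 = x := by
    intro x hx
    have hg : x ≠ g := by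
      rintro rfl
      simp only [hψ, if_true, Vx] at hx
      omega
    rw [e x hg] at hx ⊢
    cases x with
    | zero => exact absurd hx (by unfold Vx; decide)
    | succ x => exact ⟨hg, by rw [pv_succ]; omega⟩
  obtain ⟨μ, χ, a1, -, a3, a4, a5⟩ := X.complete (y := y) (fun x₀ hx a b ha hab hb => by
    have lv : ∀ x, Eqv P 0 (fun y => GoodA P (Y P m) fun j => ψ (y j)) x x₀ → Vx (ψ x) := by
      intro x h
      have h3 := (ok_eqv hP).mp ((good_pad hP hY p0 (by omega)).mp h)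
      have h4 := mt (fun h => (good_pad hP hY p0 (by omega)).mpr ((ok_eqv hP).mpr h)) hx
      unfold Same Pad Vx at *
      omega
    have lr : ∀ i B, i < P.Q + 4 → F P 0 (fun y => GoodA P (Y P m) fun j => ψ (y j)) i B →
        Vx (ψ (B 0)) → rel (Y P m) i fun κ => ψ (B κ) / 4 := by
      intro i B hi h h0
      rcases (good_pad hP hY p0 hi).mp h with h3 | h3
      · have := h3 0 (by omega)
        unfold Pad Vx at *
        beta_reduce at this
        omega
      · exact h3.2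
    have : b < g := by
      clear hb
      induction hab with
      | refl =>
        have h3 : ψ a / 4 = 0 := rel2.mp (lr 2 _ (by omega) ha.2 (lv _ ha.1))
        have := vx _ (lv _ ha.1)
        omega
      | @tail b c _ e ih =>
        have h3 : ψ c / 4 = ψ b / 4 + 1 := rel1.mp (lr 1 _ (by omega) e.2 (lv _ e.1))
        have := vx _ (lv _ e.1)
        have := vx _ (lv _ (X.tf_E e))
        omega
    have h3 : ψ b / 4 = m := rel3.mp (lr 3 _ (by omega) hb.2 (lv _ hb.1))
    have := vx _ (lv _ hb.1)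
    omega) fun h => hy (h.cong hP hY fun j hj => e _ (hg j hj))
  exact ⟨μ, χ, a1, a3, fun u h1 h2 => a4 u (h2.cong hP hY fun j hj => (e _ (h1 j hj)).symm), a5⟩

theorem ctxClosed (hP : WF P) (hS : Pres P S) (hn : ∀ c, ¬ Reach P.tr P.h c) (n : ℕ) :
    CtxClosed S n (TY P (n + P.k + 1)) := by
  classical
  intro w t hw ht _ _ _ hnt hv τ h1 h2 p q hT v hvw
  have hvL := (hS w t hw ht).mp hv
  have hk := two_le_k (P := P)
  have hL : P.L = 4 * 2 ^ (5 + 3 * P.d) + 8 * P.k + 8 * P.Q + 8 := rfl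
  by_cases hwt : w ∈ t
  · exact hT w hwt v hvw
  have hlen : ∀ u ∈ t, ∀ v ∈ Sub τ u, p.length + v.length + q.length = P.k + 1 := by
    intro u hu v hv
    obtain ⟨a, e, -⟩ := hT u hu v hv
    have := congrArg List.length e
    rwa [wd_length, List.length_append, List.length_append] at this
  have hl : ∀ u ∈ t, ¬ P.k + 1 < u.length := by
    intro u hu h
    obtain ⟨v', hv'⟩ := sub_nonempty h1 u
    have := sub_len h2 hv'
    have := hlen u hu v' hv'
    omega
  rcases lt_trichotomy w.length (P.k + 1) with h | h | h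
  · exact absurd (hvL.short hw (by omega)) hwt
  swap
  · obtain ⟨u, hu, h3⟩ := hvL.long ht h
    exact absurd h3 (hl u hu)
  obtain ⟨x, y, rfl⟩ := exists_wd h
  have hp := hvL.rigid hP hwt
  obtain ⟨rfl, rfl⟩ : p = [] ∧ q = [] := by
    obtain ⟨v', hv'⟩ := sub_nonempty h1 (wd P x fun _ => x)
    have := sub_len h2 hv'
    have := hlen _ hp v' hv'
    rw [wd_length] at *
    exact ⟨List.length_eq_zero_iff.mp (by omega), List.length_eq_zero_iff.mp (by omega)⟩
  simp only [List.nil_append, List.append_nil, List.length_nil, zero_add, add_zero] at hT hlen ⊢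
  have k1 : ∀ u ∈ t, u.length = P.k + 1 → ∀ z ∈ u, ∀ s ∈ τ z, s.length = 1 := by
    intro u hu h z hz s hs
    obtain ⟨v', a, -, c⟩ := sub_with h1 h2 hz hs
    have := hlen u hu v' a
    have := List.length_pos_iff.mpr (h2 z s hs)
    omega
  have k2 : ∀ z ∈ wd P x y, ∀ s ∈ τ z, s.length = 1 := by
    intro z hz
    by_contra hc
    have hzx : z ≠ x := fun e => hc (k1 _ hp (wd_length _ _) z (mem_wd.mpr (.inl e)))
    obtain ⟨j, hj, rfl⟩ := (mem_wd.mp hz).resolve_left hzx
    obtain ⟨u, hu, v', b1, b2⟩ := hvL.refute ht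
      (fun z => {if z = x then 2 else if z = y j then 8 * P.k + 3 else 1}) (fun _ => by simp)
      (fun z a ha => by rw [show a = _ from ha]; split_ifs <;> omega) (ch_single.mpr rfl)
      (.inr ⟨by simp [wd_length], by
        rw [wd_map, good_wd hP, if_pos rfl]
        rintro (h | h)
        · omega
        · have := (h.typed hj (by rw [if_neg hzx, if_pos rfl]; omega)).1 j hj
          beta_reduce at this
          rw [if_neg hzx, if_pos rfl] at this
          omega⟩)
    obtain ⟨b3, b4⟩ := b2.resolve_left (hl u hu)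
    have b5 : y j ∉ u := fun h => hc (k1 u hu b3 _ h)
    obtain ⟨x', u', rfl⟩ := exists_wd b3
    rw [ch_single.mp b1, wd_map, good_wd hP] at b4
    refine b4 (.inr (good_pads fun j' hj' => ?_))
    have : u' j' ≠ y j := fun e => b5 (mem_wd.mpr (.inr ⟨j', hj', e⟩))
    unfold Pad
    split_ifs <;> omega
  have h3 := ch_of_sub k2 hvw
  obtain ⟨a₀, a, rfl⟩ := exists_wd (h3.len.trans (wd_length _ _))
  obtain rfl : a₀ = 0 := by
    have h4 := (ch_wd.mp h3).1
    obtain ⟨_, e, -⟩ := hT _ hp (wd P a₀ fun _ => a₀) (sub_of_ch (ch_wd.mpr ⟨h4, fun _ _ => h4⟩))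
    exact (wd_inj e).1
  by_contra hc
  obtain ⟨g, g1, g2, g3⟩ := exists_gap (wd P 0 a ++ (List.range n).map fun z => (h1 z).some.headD 0)
    (n + P.k + 1) (by simp [wd_length]; omega)
  rw [List.mem_append, not_or] at g3
  obtain ⟨μ, χ, a1, a3, a4, a5⟩ := gap_complete hP hn g1 g2 (y := a) (fun h => hc ⟨a, rfl, h⟩)
    fun j hj e => g3.1 (mem_wd.mpr (.inr ⟨j, hj, e⟩))
  obtain ⟨u, hu, v', b1, b2⟩ := hvL.refute ht
    (fun z => χ '' {b | ([b] ∈ τ z ∧ b ∈ wd P 0 a) ∨ b = (h1 z).some.headD 0})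
    (fun z => ⟨_, _, .inr rfl, rfl⟩) (by rintro z _ ⟨b, -, rfl⟩; exact a3 b)
    (ch_image.mpr ⟨_, h3.mono fun z _ b hb h => .inl ⟨h, hb⟩, rfl⟩)
    (.inr ⟨by simp [wd_length], by
      rw [wd_map, good_wd hP, a1, show (4 * μ + 2) / 4 = μ by omega]
      rintro (h | h)
      · omega
      · exact a5 h⟩)
  obtain ⟨b3, b4⟩ := b2.resolve_left (hl u hu)
  obtain ⟨v₁, c1, rfl⟩ := ch_image.mp b1
  obtain ⟨a₁, rfl, c2⟩ := hT u hu v₁ (sub_of_ch (c1.mono fun z hz b _ h => by
    rcases h with h | rfl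
    · exact h.1
    · obtain ⟨c, hc⟩ := List.length_eq_one_iff.mp (k1 u hu b3 z hz _ (h1 z).some_mem)
      have := (h1 z).some_mem
      rw [hc] at this ⊢
      exact this))
  rw [wd_map, good_wd hP, a1, show (4 * μ + 2) / 4 = μ by omega] at b4
  refine b4 (.inr (a4 a₁ (fun j hj e => ?_) c2))
  obtain ⟨z, hz, h⟩ := c1.mem (mem_wd.mpr (.inr ⟨j, hj, e⟩))
  rcases h with h | h
  · exact g3.1 h.2
  · exact g3.2 (List.mem_map.mpr ⟨z, List.mem_range.mpr (hnt u hu z hz), h.symm⟩)

theorem nfb_of_not_halt (hP : WF P) (hS : Pres P S) (hn : ∀ c, ¬ Reach P.tr P.h c) :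
    ¬ FinitelyBased (Pow.add (S := S)) Pow.mul := by
  refine not_fb_of S fun n => ⟨_, ctxClosed hP hS hn n, ?_⟩
  generalize n + P.k + 1 = m
  have hY := Y_isFr hP hn m
  set L : List (ℕ → ℕ) := (fun _ => 0) :: pad P 0 2 (fun _ => 1) :: pad P 0 3 (fun _ => m + 1) ::
    (List.range m).map fun i => pad P 0 1 (cns (i + 1) fun _ => i + 2) with hL
  have ne : ∀ u ∈ {u | u ∈ L.map (wd P 0)}, u ≠ [] := by
    intro u hu
    obtain ⟨y, -, rfl⟩ := List.mem_map.mp hu
    exact wd_ne _ _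
  refine ⟨wd P 0 (pad P 0 0 (cns 1 fun _ => 0)), {u | u ∈ L.map (wd P 0)}, wd_ne _ _, ne,
    ⟨_, List.mem_cons_self⟩, List.finite_toSet _, (hS _ _ (wd_ne _ _) ne).mpr
      (validL_sound hP List.mem_cons_self fun f hf hw ψ hp h => ?_), fun u hu => ?_, ?_⟩
  · have k : ∀ i B, i < P.Q + 4 → pad P 0 i B ∈ L → Vx (ψ (B 0)) →
        (∀ κ < P.d + 1, Vx (ψ (B κ))) ∧ rel f i fun κ => ψ (B κ) / 4 := by
      intro i B hi hm h0
      refine ((good_pad hP hf hp hi).mp (h _ (List.mem_map.mpr ⟨_, hm, rfl⟩))).resolve_left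
        fun h3 => ?_
      have := h3 0 (by omega)
      unfold Pad Vx at *
      beta_reduce at this
      omega
    refine (good_pad hP hf hp (by omega)).mpr ((ok_eqv hP).mpr (.inl ⟨?_, hp⟩))
    rcases (good_pad hP hf hp (i := 2) (B := fun _ => 1) (by omega)).mp
      (h _ (List.mem_map.mpr ⟨_, by simp [hL], rfl⟩)) with h3 | ⟨h3, h4⟩
    · exact h3 0 (by omega)
    have h5 : ∀ i ≤ m, Vx (ψ (i + 1)) ∧ Relation.ReflTransGen f.E (ψ 1 / 4) (ψ (i + 1) / 4) := by
      intro i
      induction i with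
      | zero => exact fun _ => ⟨h3 0 (by omega), .refl⟩
      | succ i ih =>
        intro hi
        obtain ⟨a, b⟩ := ih (by omega)
        obtain ⟨c, d⟩ := k 1 (cns (i + 1) fun _ => i + 2) (by omega)
          (List.mem_cons_of_mem _ (List.mem_cons_of_mem _ (List.mem_cons_of_mem _
            (List.mem_map.mpr ⟨i, List.mem_range.mpr hi, rfl⟩)))) a
        exact ⟨c 1 (by have := hP.d; omega), b.tail (rel1.mp d)⟩
    exact absurd (rel3.mp (k 3 (fun _ => m + 1) (by omega) (by simp [hL]) (h5 m le_rfl).1).2)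
      (hw _ _ (rel2.mp h4) (h5 m le_rfl).2)
  · obtain ⟨y, hy, rfl⟩ := List.mem_map.mp hu
    refine ⟨y, rfl, ?_⟩
    simp only [hL, List.mem_cons, List.mem_map, List.mem_range] at hy
    rcases hy with rfl | rfl | rfl | ⟨i, -, rfl⟩
    · exact good_pads fun _ _ => pv_zero
    · exact (good_pad hP hY pv_zero (by omega)).mpr (.inr ⟨fun _ _ => rfl, rel2.mpr rfl⟩)
    · refine (good_pad hP hY pv_zero (by omega)).mpr (.inr ⟨fun _ _ => ?_, rel3.mpr ?_⟩)
      · show pv (m + 1) % 4 = 0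
        rw [pv_succ]; omega
      · show pv (m + 1) / 4 = m
        rw [pv_succ]; omega
    · refine (good_pad hP hY pv_zero (by omega)).mpr (.inr ⟨fun κ _ => ?_, rel1.mpr ?_⟩)
      · cases κ
        · show pv (i + 1) % 4 = 0
          rw [pv_succ]; omega
        · show pv (i + 1 + 1) % 4 = 0
          rw [pv_succ]; omega
      · show pv (i + 1 + 1) / 4 = pv (i + 1) / 4 + 1
        rw [pv_succ, pv_succ]; omega
  · rintro ⟨a, e, h⟩
    have := (ok_eqv hP).mp ((good_pad hP hY pv_zero (by omega)).mp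
      (h.cong hP hY fun j hj => congrArg pv ((wd_inj e).2 j hj).symm))
    revert this
    unfold Same Pad Vx
    decide

end Pool.Agent.P.MP_485d6e_al.U
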