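import Pool.Agent.P.MP_485d6e_al.U.Table

/-! The multiplication table is a primitive recursive function of the machine. -/

set_option autoImplicit false

namespace Pool.Agent.P.MP_485d6e_al.U

open Pool.Agent.P.MP_e7c2f2_al (allL Al Ex Tr)

variable {α : Type} [Primcodable α]

@[fun_prop] theorem p_div {f g : α → ℕ} (hf : Primrec f) (hg : Primrec g) :
    Primrec (fun a => f a / g a) := Primrec.nat_div.comp hf hg

@[fun_prop] theorem p_pow {f g : α → ℕ} (hf : Primrec f) (hg : Primrec g) :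
    Primrec (fun a => f a ^ g a) := (Primrec₂.unpaired'.1 Nat.Primrec.pow).comp hf hg

@[fun_prop] theorem r_bt {f g : α → ℕ} (hf : Primrec f) (hg : Primrec g) :
    PrimrecPred fun a => bt (f a) (g a) := by
  unfold bt; fun_prop

@[fun_prop] theorem r_HE {P : α → Par} {f g : α → ℕ} (hP : Primrec P) (hf : Primrec f)
    (hg : Primrec g) : PrimrecPred fun a => HE (P a) (f a) (g a) := by
  have : PrimrecPred fun a => (¬ bt (g a) 2 ∨ bt (f a) 2) ∧ (¬ bt (g a) 3 ∨ bt (f a) 3) ∧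
      bt (g a) 4 ∧ Al (List.range (P a).1) fun κ =>
        (¬ bt (g a) (5 + 3 * κ) ∨ bt (f a) (6 + 3 * κ)) ∧
          (¬ bt (f a) (5 + 3 * κ) ∨ bt (g a) (7 + 3 * κ)) := by fun_prop
  exact this.of_eq fun a => by simp only [HE, Al, List.mem_range, ← imp_iff_not_or]

@[fun_prop] theorem r_HS {f g : α → ℕ} (hf : Primrec f) (hg : Primrec g) :
    PrimrecPred fun a => HS (f a) (g a) := by
  unfold HS; fun_prop

@[fun_prop] theorem r_HEn {f : α → ℕ} (hf : Primrec f) : PrimrecPred fun a => HEn (f a) := by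
  unfold HEn; fun_prop

@[fun_prop] theorem r_Mk {f g h k : α → ℕ} (hf : Primrec f) (hg : Primrec g) (hh : Primrec h)
    (hk : Primrec k) : PrimrecPred fun a => Mk (f a) (g a) (h a) (k a) := by
  unfold Mk; fun_prop

/-- the tuple read off from a list at an offset -/
def HFL (P : Par) (μ q : ℕ) (v : List ℕ) (o c : ℕ) : Prop :=
  HF P μ q (fun κ => v.getD (o + κ) 0 / 4) c

@[fun_prop] theorem r_HFL {P : α → Par} {μ q o c : α → ℕ} {v : α → List ℕ} (hP : Primrec P)
    (hμ : Primrec μ) (hq : Primrec q) (hv : Primrec v) (ho : Primrec o) (hc : Primrec c) :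
    PrimrecPred fun a => HFL (P a) (μ a) (q a) (v a) (o a) (c a) := by
  have : PrimrecPred fun a => (q a = (P a).2.2.1 ∧ bt (c a) 2) ∨
      (q a = μ a / 2 ∧ (Al (List.range (P a).1) fun κ => bt ((v a).getD (o a + κ) 0 / 4) (5 + 3 * κ)) ∧
        bt (c a) 3 ∧ ¬ (μ a / 2 = 0 ∧ μ a % 2 = 1 ∧
          Al (List.range (P a).1) fun κ => HS (μ a) ((v a).getD (o a + κ) 0 / 4))) ∨
      (μ a % 2 = 1 ∧ bt (c a) 2 ∧ Ex (P a).2.2.2 fun t => t.1 = q a ∧ t.2.1 = μ a / 2 ∧
        Mk (μ a) t.2.2.2 t.2.2.1 ((v a).getD (o a + t.2.2.1) 0 / 4) ∧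
        Al (List.range (P a).1) fun κ => κ = t.2.2.1 ∨
          bt ((v a).getD (o a + κ) 0 / 4) (5 + 3 * κ)) := by fun_prop
  exact this.of_eq fun a => by simp only [HFL, HF, Al, Ex, List.mem_range, or_iff_not_imp_left]

def BlkL (P : Par) (μ i : ℕ) (v : List ℕ) (o : ℕ) : Prop :=
  BlkOK P (H P μ) i fun κ => v.getD (o + κ) 0

@[fun_prop] theorem r_BlkL {P : α → Par} {μ i o : α → ℕ} {v : α → List ℕ} (hP : Primrec P)
    (hμ : Primrec μ) (hi : Primrec i) (hv : Primrec v) (ho : Primrec o) :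
    PrimrecPred fun a => BlkL (P a) (μ a) (i a) (v a) (o a) := by
  have : PrimrecPred fun a =>
      (Al (List.range ((P a).1 + 1)) fun κ =>
        (v a).getD (o a + κ) 0 % 4 = 1 ∨ (v a).getD (o a + κ) 0 % 4 = 2) ∨
      ((Al (List.range ((P a).1 + 1)) fun κ => (v a).getD (o a + κ) 0 % 4 = 0) ∧
        (i a = 0 ∨ (i a = 1 ∧ HE (P a) ((v a).getD (o a) 0 / 4) ((v a).getD (o a + 1) 0 / 4)) ∨
          (i a = 2 ∧ HS (μ a) ((v a).getD (o a) 0 / 4)) ∨ (i a = 3 ∧ HEn ((v a).getD (o a) 0 / 4)) ∨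
          (4 ≤ i a ∧ ¬ HFL (P a) (μ a) (i a - 4) (v a) (o a + 1) ((v a).getD (o a) 0 / 4)))) := by
    fun_prop
  refine this.of_eq fun a => ?_
  simp only [BlkL, BlkOK, rel, H, HFL, Pad, Vx, Al, List.mem_range, add_zero, add_assoc,
    add_comm 1]

@[fun_prop] theorem r_Good {P : α → Par} {v : α → List ℕ} (hP : Primrec P) (hv : Primrec v) :
    PrimrecPred fun a => Good (P a) (v a) := by
  have : PrimrecPred fun a => ¬ (v a).getD 0 0 % 4 = 2 ∨
      ((Al (List.range ((P a).2.1 + 4)) fun i =>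
        BlkL (P a) ((v a).getD 0 0 / 4) i (v a) (i * ((P a).1 + 1) + 1)) ∨
      ((Al (List.range (((P a).2.1 + 4) * ((P a).1 + 1))) fun j =>
        (v a).getD (j + 1) 0 % 4 = 3 ∧ (v a).getD (j + 1) 0 / 8 = j) ∧
      Ex (List.range (((P a).2.1 + 4) * ((P a).1 + 1))) fun j => (v a).getD (j + 1) 0 % 8 = 3)) := by
    fun_prop
  refine this.of_eq fun a => ?_
  simp only [Good, GoodA, Typed, BlkL, Al, Ex, List.mem_range]
  refine or_congr Iff.rfl (or_congr (forall₂_congr fun i _ => iff_of_eq ?_) Iff.rfl)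
  congr 1
  funext κ
  unfold blk
  rw [Nat.add_right_comm]

@[fun_prop] theorem p_k {P : α → Par} (hP : Primrec P) : Primrec fun a => (P a).k := by
  unfold Par.k Par.Q Par.d; fun_prop

@[fun_prop] theorem p_L {P : α → Par} (hP : Primrec P) : Primrec fun a => (P a).L := by
  unfold Par.L Par.Q Par.d; fun_prop

@[fun_prop] theorem r_Lt {P : α → Par} {v : α → List ℕ} (hP : Primrec P) (hv : Primrec v) :
    PrimrecPred fun a => Lt (P a) (v a) := by
  have : PrimrecPred fun a => Al (v a) fun x => x < (P a).L := by fun_prop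
  exact this

@[fun_prop] theorem p_nf {P : α → Par} {v : α → List ℕ} (hP : Primrec P) (hv : Primrec v) :
    Primrec fun a => nf (P a) (v a) := by
  unfold nf; fun_prop

@[fun_prop] theorem p_rp {P : α → Par} {v : α → List ℕ} (hP : Primrec P) (hv : Primrec v) :
    Primrec fun a => rp (P a) (v a) := by
  unfold rp; fun_prop

@[fun_prop] theorem p_els {P : α → Par} (hP : Primrec P) : Primrec fun a => els (P a) := by
  unfold els; fun_prop

@[fun_prop] theorem p_ix {L : α → List (List ℕ)} {v : α → List ℕ} (hL : Primrec L)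
    (hv : Primrec v) : Primrec fun x => ix (L x) (v x) :=
  Pool.Agent.P.MP_e7c2f2_al.p_idxOf hv hL

theorem p_table {P : α → Par} (hP : Primrec P) : Primrec fun a => table (P a) := by
  unfold table; fun_prop

end Pool.Agent.P.MP_485d6e_al.U
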