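import Pool.Agent.P.MP_485d6e_al.U.NFB
import Pool.Agent.P.MP_e7c2f2_al.Comp

/-! The semigroup of normal forms and its multiplication table. -/

set_option autoImplicit false

namespace Pool.Agent.P.MP_485d6e_al.U

open Pool.Agent.P.MP_e7c2f2_al (allL mem_allL)

def els (P : Par) : List (List ℕ) :=
  allL P.L P.k ++ (List.range P.L).map fun a => (List.range (P.k + 1)).map fun _ => a

def rp (P : Par) (u : List ℕ) : List ℕ := if u = [] then [P.L] else u

def ix (L : List (List ℕ)) (a : List ℕ) : ℕ := @List.idxOf _ instBEqOfDecidableEq a L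

noncomputable def table (P : Par) : List (List ℕ) :=
  (els P).map fun u => (els P).map fun v => ix (els P) (nf P (rp P u ++ rp P v))

variable {P : Par}

theorem allL_nodup (b n : ℕ) : (allL b n).Nodup := by
  induction n with
  | zero => simp [allL]
  | succ n ih =>
    unfold allL at ih ⊢
    rw [Function.iterate_succ_apply']
    refine List.nodup_cons.mpr ⟨by simp, List.nodup_flatMap.mpr ⟨fun l _ => ?_, ?_⟩⟩
    · exact List.nodup_range.map fun a b h => (List.cons.inj h).1
    · refine ih.imp fun {l l'} h => ?_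
      simp only [Function.onFun, List.disjoint_left, List.mem_map, not_exists, not_and]
      rintro _ ⟨a, -, rfl⟩ b - e
      exact h (List.cons.inj e).2.symm

theorem const_eq (a : ℕ) : ((List.range (P.k + 1)).map fun _ => a) = wd P a fun _ => a := by
  simp [wd, List.replicate_succ]

theorem mem_els {u : List ℕ} :
    u ∈ els P ↔ (Lt P u ∧ u.length ≤ P.k) ∨ ∃ a < P.L, u = wd P a fun _ => a := by
  simp only [els, List.mem_append, mem_allL, List.mem_map, List.mem_range, const_eq, Lt]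
  exact or_congr and_comm (exists_congr fun a => and_congr_right fun _ => eq_comm)

theorem els_nodup : (els P).Nodup := by
  refine List.nodup_append.mpr ⟨allL_nodup _ _, List.nodup_range.map fun a b h => ?_, ?_⟩
  · simp only [const_eq] at h
    exact (wd_inj h).1
  · intro u hu v hv e
    obtain ⟨a, -, rfl⟩ := List.mem_map.mp hv
    have := (mem_allL.mp hu).1
    rw [e, List.length_map, List.length_range] at this
    omega

theorem nf_mem (v : List ℕ) : nf P v ∈ els P := by
  rcases nf_cases (P := P) v with ⟨a, b, c⟩ | ⟨a, b, -, c⟩ | ⟨a, -⟩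
  · rw [c]; exact mem_els.mpr (.inl ⟨a, b⟩)
  · obtain ⟨x, y, rfl⟩ := exists_wd b
    rw [c, wd_map]
    exact mem_els.mpr (.inr ⟨x, a _ (mem_wd.mpr (.inl rfl)), rfl⟩)
  · rw [a]; exact mem_els.mpr (.inl ⟨by simp [Lt], by simp⟩)

theorem rp_ne (u : List ℕ) : rp P u ≠ [] := by
  unfold rp
  split_ifs with h
  · simp
  · exact h

theorem nf_rp (hP : WF P) {u : List ℕ} (hu : u ∈ els P) : nf P (rp P u) = u := by
  unfold rp
  split_ifs with h
  · rw [h]
    exact nf_nil (.inl fun h => lt_irrefl _ (h _ List.mem_cons_self))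
  · rcases mem_els.mp hu with ⟨a, b⟩ | ⟨a, b, rfl⟩
    · exact nf_short a b
    · rw [nf_good (fun c hc => ?_) (wd_length _ _) (good_const hP a), wd_map]
      · rfl
      · rcases mem_wd.mp hc with h | ⟨_, _, h⟩
        · exact h ▸ b
        · exact h ▸ b

theorem nf_app_nil {u v : List ℕ} (hu : u ≠ []) (hv : v ≠ [])
    (h : ¬ (Lt P u ∧ u.length ≤ P.k) ∨ ¬ (Lt P v ∧ v.length ≤ P.k)) : nf P (u ++ v) = [] := by
  have := List.length_pos_iff.mpr hu
  have := List.length_pos_iff.mpr hv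
  by_cases h1 : Lt P (u ++ v)
  · have h2 : Lt P u := fun a ha => h1 a (List.mem_append_left _ ha)
    have h3 : Lt P v := fun a ha => h1 a (List.mem_append_right _ ha)
    refine nf_nil (.inr (.inl ?_))
    simp only [h2, h3, true_and] at h
    rw [List.length_append]
    omega
  · exact nf_nil (.inl h1)

theorem nf_eq_cases {u u' : List ℕ} (hu : u ≠ []) (hu' : u' ≠ []) (h : nf P u = nf P u') :
    u = u' ∨ (¬ (Lt P u ∧ u.length ≤ P.k) ∧ ¬ (Lt P u' ∧ u'.length ≤ P.k)) := by
  by_cases h1 : Lt P u ∧ u.length ≤ P.k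
  · exact .inl (eq_of_nf_short hu h1.2 (h ▸ nf_short h1.1 h1.2)).symm
  by_cases h2 : Lt P u' ∧ u'.length ≤ P.k
  · exact .inl (eq_of_nf_short hu' h2.2 (h ▸ nf_short h2.1 h2.2))
  exact .inr ⟨h1, h2⟩

theorem nf_congr {u u' v v' : List ℕ} (hu : u ≠ []) (hu' : u' ≠ []) (hv : v ≠ []) (hv' : v' ≠ [])
    (h : nf P u = nf P u') (h' : nf P v = nf P v') : nf P (u ++ v) = nf P (u' ++ v') := by
  rcases nf_eq_cases hu hu' h with rfl | a
  · rcases nf_eq_cases hv hv' h' with rfl | b
    · rfl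
    · rw [nf_app_nil hu hv (.inr b.1), nf_app_nil hu hv' (.inr b.2)]
  · rw [nf_app_nil hu hv (.inl a.1), nf_app_nil hu' hv' (.inl a.2)]

/-- the element represented by a word -/
noncomputable def ev (P : Par) (v : List ℕ) : Fin (els P).length :=
  ⟨ix (els P) (nf P v), @List.idxOf_lt_length_of_mem _ _ instBEqOfDecidableEq _ _ (nf_mem v)⟩

theorem get_ev (v : List ℕ) : (els P)[(ev P v).1] = nf P v :=
  @List.getElem_idxOf _ instBEqOfDecidableEq _ _ _ (ev P v).2

theorem ev_eq {u v : List ℕ} : ev P u = ev P v ↔ nf P u = nf P v :=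
  ⟨fun h => by rw [← get_ev u, ← get_ev v]; simp only [h], fun h => Fin.ext (congrArg (ix _) h)⟩

theorem ev_rp (hP : WF P) (i : Fin (els P).length) : ev P (rp P (els P)[i.1]) = i := by
  refine Fin.ext ?_
  show ix _ _ = _
  rw [nf_rp hP (List.getElem_mem _)]
  exact @List.Nodup.idxOf_getElem _ instBEqOfDecidableEq _ _ els_nodup _ _

noncomputable def mulF (P : Par) (i j : Fin (els P).length) : Fin (els P).length :=
  ev P (rp P (els P)[i.1] ++ rp P (els P)[j.1])

theorem ev_append (hP : WF P) {u v : List ℕ} (hu : u ≠ []) (hv : v ≠ []) :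
    ev P (u ++ v) = mulF P (ev P u) (ev P v) :=
  ev_eq.mpr (nf_congr hu (rp_ne _) hv (rp_ne _) (by rw [get_ev, nf_rp hP (nf_mem _)])
    (by rw [get_ev, nf_rp hP (nf_mem _)]))

theorem ev_surj (hP : WF P) (i : Fin (els P).length) : ∃ u, u ≠ [] ∧ ev P u = i :=
  ⟨_, rp_ne _, ev_rp hP i⟩

/-- the semigroup attached to a machine -/
@[reducible] noncomputable def sg (hP : WF P) : Semigroup (Fin (els P).length) where
  mul := mulF P
  mul_assoc := fun a b c => by
    obtain ⟨a, ha, rfl⟩ := ev_surj hP a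
    obtain ⟨b, hb, rfl⟩ := ev_surj hP b
    obtain ⟨c, hc, rfl⟩ := ev_surj hP c
    show mulF P (mulF P _ _) _ = mulF P _ (mulF P _ _)
    rw [← ev_append hP ha hb, ← ev_append hP hb hc, ← ev_append hP (by simp [ha]) hc,
      ← ev_append hP ha (by simp [hb]), List.append_assoc]

theorem table_eq : table P = List.ofFn fun a : Fin (els P).length =>
    List.ofFn fun b : Fin (els P).length => (mulF P a b).val := by
  unfold table
  rw [← List.ofFn_getElem_eq_map]
  congr 1
  funext a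
  rw [← List.ofFn_getElem_eq_map]
  rfl

theorem pres_of {S : Type} [Semigroup S] (e : List ℕ → S)
    (h1 : ∀ u v, u ≠ [] → v ≠ [] → e (u ++ v) = e u * e v) (h2 : ∀ s, ∃ u, u ≠ [] ∧ e u = s)
    (h3 : ∀ u v, e u = e v ↔ nf P u = nf P v) : Pres P S := by
  have key : ∀ (τ : ℕ → Set (List ℕ)), (∀ x, ∀ v ∈ τ x, v ≠ []) → ∀ u : List ℕ, u ≠ [] →
      ∀ s, s ∈ Val (fun x => e '' τ x) u ↔ ∃ v ∈ Sub τ u, s = (e v : WithOne S) := by
    intro τ hτ u
    induction u with
    | nil => exact fun h => absurd rfl h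
    | cons x u ih =>
      intro _ s
      by_cases hu : u = []
      · subst hu
        simp [Val, Sub, eq_comm]
      constructor
      · rintro ⟨_, ⟨a, ha, rfl⟩, b, hb, rfl⟩
        obtain ⟨v, hv, rfl⟩ := (ih hu b).mp hb
        exact ⟨a ++ v, ⟨a, ha, v, hv, rfl⟩, by
          rw [h1 _ _ (hτ x a ha) (Sub_ne_nil τ hτ u hu v hv), WithOne.coe_mul]⟩
      · rintro ⟨_, ⟨a, ha, v, hv, rfl⟩, rfl⟩
        exact ⟨_, ⟨a, ha, rfl⟩, _, (ih hu _).mpr ⟨v, hv, rfl⟩, by
          rw [h1 _ _ (hτ x a ha) (Sub_ne_nil τ hτ u hu v hv), WithOne.coe_mul]⟩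
  intro w t hw ht
  constructor
  · intro h τ a b v hv
    obtain ⟨u, hu, c⟩ := h (fun x => e '' τ x) (fun x => (a x).image _) _
      ((key τ b w hw _).mpr ⟨v, hv, rfl⟩)
    obtain ⟨v', hv', d⟩ := (key τ b u (ht u hu) _).mp c
    exact ⟨u, hu, v', hv', (h3 _ _).mp (WithOne.coe_inj.mp d)⟩
  · intro h φ hφ s hs
    have e1 : φ = fun x => e '' {u | u ≠ [] ∧ e u ∈ φ x} := by
      funext x
      ext s
      constructor
      · intro hs
        obtain ⟨u, a, rfl⟩ := h2 s
        exact ⟨u, ⟨a, hs⟩, rfl⟩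
      · rintro ⟨u, a, rfl⟩
        exact a.2
    have b : ∀ x, ∀ v ∈ {u | u ≠ [] ∧ e u ∈ φ x}, v ≠ [] := fun x v hv => hv.1
    rw [e1] at hs ⊢
    obtain ⟨v, hv, rfl⟩ := (key _ b w hw _).mp hs
    obtain ⟨u, hu, v', hv', d⟩ := h _ (fun x => by
      obtain ⟨s, hs⟩ := hφ x
      obtain ⟨u, a, rfl⟩ := h2 s
      exact ⟨u, a, hs⟩) b v hv
    exact ⟨u, hu, (key _ b u (ht u hu) _).mpr ⟨v', hv', by rw [(h3 _ _).mpr d]⟩⟩

theorem sg_pres (hP : WF P) : @Pres P _ (sg hP) :=
  @pres_of P _ (sg hP) (ev P) (fun _ _ => ev_append hP) (ev_surj hP) fun _ _ => ev_eq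

theorem sg_nil (hP : WF P) (a : Fin (els P).length) (l : List (Fin (els P).length))
    (hl : l.length = P.k + 1) : l.foldl (mulF P) a = ev P [] := by
  have key : ∀ (l : List (Fin (els P).length)) (u : List ℕ), u ≠ [] →
      ∃ v, u.length + l.length ≤ v.length ∧ l.foldl (mulF P) (ev P u) = ev P v := by
    intro l
    induction l with
    | nil => exact fun u _ => ⟨u, le_rfl, rfl⟩
    | cons b l ih =>
      intro u hu
      obtain ⟨b, hb, rfl⟩ := ev_surj hP b
      obtain ⟨v, h1, h2⟩ := ih (u ++ b) (by simp [hu])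
      have := List.length_pos_iff.mpr hb
      refine ⟨v, ?_, by rw [List.foldl_cons, ← ev_append hP hu hb, h2]⟩
      rw [List.length_append] at h1
      rw [List.length_cons]
      omega
  obtain ⟨u, hu, rfl⟩ := ev_surj hP a
  obtain ⟨v, h1, h2⟩ := key l u hu
  have := List.length_pos_iff.mpr hu
  rw [h2, ev_eq, nf_nil (.inr (.inl (by omega))), nf_short (by simp [Lt]) (by simp)]

end Pool.Agent.P.MP_485d6e_al.U
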