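import Pool.Agent.P.MP_485d6e_al.U.Horn
import Pool.Agent.P.MP_485d6e_al.Sep
import Pool.Agent.P.MP_485d6e_al.FBCrit

/-! Normal forms of words of letters and the valid inequalities. -/

set_option autoImplicit false

namespace Pool.Agent.P.MP_485d6e_al.U

/-- the word with first letter `p` and arguments `y` -/
def wd (P : Par) (p : ℕ) (y : ℕ → ℕ) : List ℕ := p :: (List.range P.k).map y

def Good (P : Par) (v : List ℕ) : Prop :=
  ¬ v.getD 0 0 % 4 = 2 ∨ GoodA P (H P (v.getD 0 0 / 4)) fun j => v.getD (j + 1) 0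

def Lt (P : Par) (v : List ℕ) : Prop := ∀ a ∈ v, a < P.L

open Classical in
/-- the normal form of a word; the empty list stands for zero -/
noncomputable def nf (P : Par) (v : List ℕ) : List ℕ :=
  if Lt P v ∧ v.length ≤ P.k then v else
    if Lt P v ∧ v.length = P.k + 1 ∧ Good P v then v.map fun _ => v.getD 0 0 else []

def ValidL (P : Par) (w : List ℕ) (t : Set (List ℕ)) : Prop :=
  ∀ τ : ℕ → Set (List ℕ), (∀ x, (τ x).Nonempty) → (∀ x, ∀ v ∈ τ x, v ≠ []) →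
    ∀ v ∈ Sub τ w, ∃ u ∈ t, ∃ v' ∈ Sub τ u, nf P v = nf P v'

/-- `v` is obtained from `u` by choosing a letter for each occurrence -/
def Ch (φ : ℕ → Set ℕ) (u v : List ℕ) : Prop := List.Forall₂ (fun x a => a ∈ φ x) u v

variable {P : Par}

theorem wd_length (p : ℕ) (y : ℕ → ℕ) : (wd P p y).length = P.k + 1 := by simp [wd]

theorem wd_ne (p : ℕ) (y : ℕ → ℕ) : wd P p y ≠ [] := by simp [wd]

theorem mem_wd {p x : ℕ} {y : ℕ → ℕ} : x ∈ wd P p y ↔ x = p ∨ ∃ j < P.k, y j = x := by simp [wd]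

theorem wd_map (p : ℕ) (y ψ : ℕ → ℕ) : (wd P p y).map ψ = wd P (ψ p) fun j => ψ (y j) := by
  simp [wd]

theorem wd_congr {p : ℕ} {y y' : ℕ → ℕ} (h : ∀ j < P.k, y j = y' j) : wd P p y = wd P p y' := by
  unfold wd
  rw [List.map_congr_left fun j hj => h j (List.mem_range.mp hj)]

theorem wd_getD {p j : ℕ} {y : ℕ → ℕ} (hj : j < P.k) : (wd P p y).getD (j + 1) 0 = y j := by
  simp [wd, List.getD_eq_getElem?_getD, hj]

theorem exists_wd {v : List ℕ} (h : v.length = P.k + 1) : ∃ p y, v = wd P p y := by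
  obtain ⟨p, v, rfl⟩ := List.exists_cons_of_length_eq_add_one h
  refine ⟨p, fun j => v.getD j 0, congrArg _ (List.ext_getElem (by simpa using h) fun i a b => ?_)⟩
  simp [List.getD_eq_getElem?_getD, a]

theorem wd_inj {p p' : ℕ} {y y' : ℕ → ℕ} (h : wd P p y = wd P p' y') :
    p = p' ∧ ∀ j < P.k, y j = y' j :=
  ⟨(List.cons.inj h).1, fun j hj => by rw [← wd_getD (p := p) (y := y) hj, h, wd_getD hj]⟩

theorem good_wd (hP : WF P) {p : ℕ} {y : ℕ → ℕ} :
    Good P (wd P p y) ↔ ¬ p % 4 = 2 ∨ GoodA P (H P (p / 4)) y :=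
  or_congr Iff.rfl ⟨GoodA.cong hP (H_isFr hP _) fun _ hj => wd_getD hj,
    GoodA.cong hP (H_isFr hP _) fun _ hj => (wd_getD hj).symm⟩

theorem good_const (hP : WF P) (a : ℕ) : Good P (wd P a fun _ => a) := by
  refine (good_wd hP).mpr ?_
  by_cases h5 : a % 4 = 2
  · exact .inr (good_pads fun _ _ => .inr h5)
  · exact .inl h5

theorem ch_wd {φ : ℕ → Set ℕ} {p a₀ : ℕ} {y a : ℕ → ℕ} :
    Ch φ (wd P p y) (wd P a₀ a) ↔ a₀ ∈ φ p ∧ ∀ j < P.k, a j ∈ φ (y j) := by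
  simp [Ch, wd, List.forall₂_map_left_iff, List.forall₂_map_right_iff, List.forall₂_same]

theorem Ch.len {φ : ℕ → Set ℕ} {u v : List ℕ} (h : Ch φ u v) : v.length = u.length :=
  (List.Forall₂.length_eq h).symm

theorem Ch.mem {φ : ℕ → Set ℕ} {u v : List ℕ} (h : Ch φ u v) {a : ℕ} (ha : a ∈ v) :
    ∃ x ∈ u, a ∈ φ x := by
  induction h with
  | nil => simp at ha
  | cons h1 _ ih =>
    rcases List.mem_cons.mp ha with rfl | ha
    · exact ⟨_, List.mem_cons_self, h1⟩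
    · obtain ⟨x, hx, h⟩ := ih ha
      exact ⟨x, List.mem_cons_of_mem _ hx, h⟩

theorem Ch.mono {φ φ' : ℕ → Set ℕ} {u v : List ℕ} (h : Ch φ u v)
    (h' : ∀ x ∈ u, ∀ a ∈ v, a ∈ φ x → a ∈ φ' x) : Ch φ' u v := by
  induction h with
  | nil => exact .nil
  | cons h1 _ ih =>
    exact .cons (h' _ List.mem_cons_self _ List.mem_cons_self h1)
      (ih fun x hx a ha => h' x (List.mem_cons_of_mem _ hx) a (List.mem_cons_of_mem _ ha))

theorem ch_single {ψ : ℕ → ℕ} {u v : List ℕ} : Ch (fun x => {ψ x}) u v ↔ v = u.map ψ := by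
  induction u generalizing v with
  | nil => simp [Ch]
  | cons x u ih =>
    refine List.forall₂_cons_left_iff.trans ⟨fun ⟨_, _, a, b, c⟩ => ?_, fun h => ?_⟩
    · rw [c, show _ = ψ x from a, ih.mp b, List.map_cons]
    · exact ⟨_, _, rfl, ih.mpr rfl, h⟩

theorem ch_image {ρ : ℕ → Set ℕ} {χ : ℕ → ℕ} {u v : List ℕ} :
    Ch (fun x => χ '' ρ x) u v ↔ ∃ v₁, Ch ρ u v₁ ∧ v = v₁.map χ := by
  constructor
  · intro h
    induction h with
    | nil => exact ⟨[], .nil, rfl⟩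
    | cons h1 _ ih =>
      obtain ⟨v₁, a, rfl⟩ := ih
      obtain ⟨b, c, rfl⟩ := h1
      exact ⟨b :: v₁, .cons c a, rfl⟩
  · rintro ⟨v₁, h, rfl⟩
    induction h with
    | nil => exact .nil
    | cons h1 _ ih => exact .cons ⟨_, h1, rfl⟩ ih

section sub

variable {τ : ℕ → Set (List ℕ)}

theorem sub_of_ch {u v : List ℕ} (h : Ch (fun x => {a | [a] ∈ τ x}) u v) : v ∈ Sub τ u := by
  induction h with
  | nil => exact rfl
  | cons h1 _ ih => exact ⟨_, h1, _, ih, rfl⟩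

theorem ch_of_sub {u v : List ℕ} (h : ∀ x ∈ u, ∀ s ∈ τ x, s.length = 1) (hv : v ∈ Sub τ u) :
    Ch (fun x => {a | [a] ∈ τ x}) u v := by
  induction u generalizing v with
  | nil => rw [show v = [] from hv]; exact .nil
  | cons x u ih =>
    obtain ⟨s, hs, b, hb, rfl⟩ := hv
    obtain ⟨a, rfl⟩ := List.length_eq_one_iff.mp (h x List.mem_cons_self s hs)
    exact .cons hs (ih (fun y hy => h y (List.mem_cons_of_mem _ hy)) hb)

theorem sub_len (hτ : ∀ x, ∀ v ∈ τ x, v ≠ []) {u v : List ℕ} (hv : v ∈ Sub τ u) :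
    u.length ≤ v.length := by
  induction u generalizing v with
  | nil => simp
  | cons x u ih =>
    obtain ⟨s, hs, b, hb, rfl⟩ := hv
    have := ih hb
    have := List.length_pos_iff.mpr (hτ x s hs)
    simp only [List.length_cons, List.length_append]
    omega

theorem ch_of_len (hτ : ∀ x, ∀ v ∈ τ x, v ≠ []) {u v : List ℕ} (hv : v ∈ Sub τ u)
    (hl : v.length ≤ u.length) : Ch (fun x => {a | [a] ∈ τ x}) u v := by
  induction u generalizing v with
  | nil => rw [show v = [] from hv]; exact .nil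
  | cons x u ih =>
    obtain ⟨s, hs, b, hb, rfl⟩ := hv
    have := sub_len hτ hb
    have := List.length_pos_iff.mpr (hτ x s hs)
    simp only [List.length_cons, List.length_append] at hl
    have h3 : b.length ≤ u.length := by omega
    obtain ⟨a, rfl⟩ := List.length_eq_one_iff.mp (show s.length = 1 by omega)
    exact .cons hs (ih hb h3)

theorem sub_nonempty (h : ∀ x, (τ x).Nonempty) (u : List ℕ) : (Sub τ u).Nonempty :=
  ⟨_, flatMap_mem_Sub τ (fun x => (h x).some) u fun x _ => (h x).some_mem⟩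

theorem sub_with (h : ∀ x, (τ x).Nonempty) (hτ : ∀ x, ∀ v ∈ τ x, v ≠ []) {u s : List ℕ} {z : ℕ}
    (hz : z ∈ u) (hs : s ∈ τ z) :
    ∃ v ∈ Sub τ u, (∀ a ∈ s, a ∈ v) ∧ u.length + s.length ≤ v.length + 1 := by
  obtain ⟨u1, u2, rfl⟩ := List.append_of_mem hz
  obtain ⟨a, ha⟩ := sub_nonempty h u1
  obtain ⟨b, hb⟩ := sub_nonempty h u2
  refine ⟨a ++ (s ++ b), (mem_Sub_append _ _ _ _).mpr ⟨a, ha, _, ⟨s, hs, b, hb, rfl⟩, rfl⟩,
    fun c hc => by simp [hc], ?_⟩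
  have := sub_len hτ ha
  have := sub_len hτ hb
  simp only [List.length_append, List.length_cons]
  omega

end sub

theorem nf_cases (v : List ℕ) : (Lt P v ∧ v.length ≤ P.k ∧ nf P v = v) ∨
    (Lt P v ∧ v.length = P.k + 1 ∧ Good P v ∧ nf P v = v.map fun _ => v.getD 0 0) ∨
    (nf P v = [] ∧ (¬ Lt P v ∨ P.k + 1 < v.length ∨ (v.length = P.k + 1 ∧ ¬ Good P v))) := by
  unfold nf
  split_ifs with h1 h2
  · exact .inl ⟨h1.1, h1.2, rfl⟩
  · exact .inr (.inl ⟨h2.1, h2.2.1, h2.2.2, rfl⟩)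
  · refine .inr (.inr ⟨rfl, ?_⟩)
    by_contra h
    push Not at h
    exact h2 ⟨h.1, by have := mt (And.intro h.1) h1; omega,
      h.2.2 (by have := mt (And.intro h.1) h1; omega)⟩

theorem nf_short {v : List ℕ} (h1 : Lt P v) (h2 : v.length ≤ P.k) : nf P v = v := if_pos ⟨h1, h2⟩

theorem nf_good {v : List ℕ} (h1 : Lt P v) (h2 : v.length = P.k + 1) (h3 : Good P v) :
    nf P v = v.map fun _ => v.getD 0 0 := by
  unfold nf
  rw [if_neg (by omega), if_pos ⟨h1, h2, h3⟩]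

theorem nf_nil {v : List ℕ}
    (h : ¬ Lt P v ∨ P.k + 1 < v.length ∨ (v.length = P.k + 1 ∧ ¬ Good P v)) : nf P v = [] := by
  rcases nf_cases (P := P) v with ⟨a, b, -⟩ | ⟨a, b, c, -⟩ | a
  · rcases h with h | h | h
    · exact absurd a h
    · omega
    · omega
  · rcases h with h | h | h
    · exact absurd a h
    · omega
    · exact absurd c h.2
  · exact a.1

theorem bad_of_nil {v : List ℕ} (h0 : v ≠ []) (h : nf P v = []) :
    ¬ Lt P v ∨ P.k + 1 < v.length ∨ (v.length = P.k + 1 ∧ ¬ Good P v) := by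
  rcases nf_cases (P := P) v with ⟨-, -, a⟩ | ⟨-, -, -, a⟩ | a
  · exact absurd (a ▸ h) h0
  · exact absurd (List.map_eq_nil_iff.mp (a ▸ h)) h0
  · exact a.2

theorem eq_of_nf_short {v v' : List ℕ} (h0 : v ≠ []) (h2 : v.length ≤ P.k) (h : nf P v' = v) :
    v' = v := by
  rcases nf_cases (P := P) v' with ⟨-, -, a⟩ | ⟨-, b, -, a⟩ | a
  · exact a ▸ h
  · have := congrArg List.length (a ▸ h)
    rw [List.length_map] at this
    omega
  · exact absurd (h ▸ a.1) h0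

/-- letter-valued assignments -/
theorem ValidL.ch {w : List ℕ} {t : Set (List ℕ)} (hv : ValidL P w t) (φ : ℕ → Set ℕ)
    (hφ : ∀ x, (φ x).Nonempty) {v : List ℕ} (hc : Ch φ w v) :
    ∃ u ∈ t, ∃ v', Ch φ u v' ∧ nf P v = nf P v' := by
  have e : (fun x => {a | [a] ∈ (fun a => [a]) '' φ x}) = φ := by
    funext x; ext a; simp
  obtain ⟨u, hu, v', h1, h2⟩ := hv (fun x => (fun a => [a]) '' φ x) (fun x => (hφ x).image _)
    (by rintro x _ ⟨a, -, rfl⟩; simp) v (sub_of_ch (by rwa [e]))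
  refine ⟨u, hu, v', ?_, h2⟩
  have := ch_of_sub (by rintro x - _ ⟨a, -, rfl⟩; rfl) h1
  rwa [e] at this

theorem ValidL.refute {w : List ℕ} {t : Set (List ℕ)} (hv : ValidL P w t) (ht : ∀ u ∈ t, u ≠ [])
    (φ : ℕ → Set ℕ) (hφ : ∀ x, (φ x).Nonempty) (hL : ∀ x, ∀ a ∈ φ x, a < P.L) {v : List ℕ}
    (hc : Ch φ w v) (hb : P.k + 1 < v.length ∨ (v.length = P.k + 1 ∧ ¬ Good P v)) :
    ∃ u ∈ t, ∃ v', Ch φ u v' ∧ (P.k + 1 < u.length ∨ (u.length = P.k + 1 ∧ ¬ Good P v')) := by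
  obtain ⟨u, hu, v', h1, h2⟩ := hv.ch φ hφ hc
  rw [nf_nil (.inr hb)] at h2
  have h3 := h1.len
  refine ⟨u, hu, v', h1, h3 ▸ (bad_of_nil (fun h => ht u hu ?_) h2.symm).resolve_left
    fun h => h fun a ha => ?_⟩
  · rw [h] at h3
    exact List.length_eq_zero_iff.mp h3.symm
  · obtain ⟨x, -, hx⟩ := h1.mem ha
    exact hL x a hx

theorem map_idx_inj {w : List ℕ} : ∀ {u w' : List ℕ}, (∀ x ∈ w', x ∈ w) →
    (u.map fun x => w.idxOf x) = (w'.map fun x => w.idxOf x) → u = w'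
  | [], [], _, _ => rfl
  | [], _ :: _, _, h => by simp at h
  | _ :: _, [], _, h => by simp at h
  | a :: u, b :: w', h, e => by
    simp only [List.map_cons, List.cons.injEq] at e
    rw [(List.idxOf_inj (h b List.mem_cons_self)).mp e.1.symm,
      map_idx_inj (fun x hx => h x (List.mem_cons_of_mem _ hx)) e.2]

theorem ValidL.short {w : List ℕ} {t : Set (List ℕ)} (hv : ValidL P w t) (h0 : w ≠ [])
    (h : w.length ≤ P.k) : w ∈ t := by
  obtain ⟨u, hu, v', h1, h2⟩ := hv.ch (fun x => {w.idxOf x}) (fun _ => by simp) (ch_single.mpr rfl)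
  rw [nf_short (fun a ha => ?_) (by simpa using h)] at h2
  · have := eq_of_nf_short (by simpa using h0) (by simpa using h) h2.symm
    rw [ch_single.mp h1] at this
    exact map_idx_inj (fun _ h => h) this ▸ hu
  · obtain ⟨x, -, rfl⟩ := List.mem_map.mp ha
    have := List.idxOf_le_length (l := w) (a := x)
    unfold Par.L
    omega

theorem ValidL.long {w : List ℕ} {t : Set (List ℕ)} (hv : ValidL P w t) (ht : ∀ u ∈ t, u ≠ [])
    (h : P.k + 1 < w.length) : ∃ u ∈ t, P.k + 1 < u.length := by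
  obtain ⟨u, hu, v', h1, h2⟩ := hv.refute ht (fun _ => {1}) (fun _ => by simp)
    (fun x a ha => by rw [show a = 1 from ha]; unfold Par.L; omega) (ch_single.mpr rfl)
    (.inl (by simpa using h))
  refine ⟨u, hu, h2.resolve_right fun ⟨a, b⟩ => b (.inl ?_)⟩
  obtain ⟨p, y, rfl⟩ := exists_wd a
  rw [ch_single.mp h1, wd_map]
  simp [wd]

theorem ValidL.rigid (hP : WF P) {p : ℕ} {y : ℕ → ℕ} {t : Set (List ℕ)}
    (hv : ValidL P (wd P p y) t) (hw : wd P p y ∉ t) : wd P p (fun _ => p) ∈ t := by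
  have hk := two_le_k (P := P)
  have hL : P.L = 4 * 2 ^ (5 + 3 * P.d) + 8 * P.k + 8 * P.Q + 8 := rfl
  obtain ⟨u, hu, v', h1, h2⟩ := hv.ch
    (fun x => {a | a = P.L ∨ (x = p ∧ a = 2) ∨ ∃ l < P.k, y l = x ∧ a = 8 * l + 3})
    (fun _ => ⟨_, .inl rfl⟩) (v := wd P 2 fun l => 8 * l + 3)
    (ch_wd.mpr ⟨.inr (.inl ⟨rfl, rfl⟩), fun j hj => .inr (.inr ⟨j, hj, rfl, rfl⟩)⟩)
  rw [nf_good (fun a ha => by rcases mem_wd.mp ha with rfl | ⟨j, hj, rfl⟩ <;> omega) (wd_length _ _)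
    ((good_wd hP).mpr (.inr (.inr ⟨fun j _ => by omega, 0, by omega, by omega⟩))), wd_map] at h2
  have h3 := congrArg List.length h2
  rw [wd_length] at h3
  rcases nf_cases (P := P) v' with ⟨-, a, b⟩ | ⟨a, b, c, d⟩ | ⟨a, -⟩
  · rw [b] at h3; omega
  swap
  · rw [a] at h3; simp at h3
  obtain ⟨a₀, a', rfl⟩ := exists_wd b
  obtain ⟨x, u', rfl⟩ := exists_wd (h1.len ▸ b)
  rw [d, wd_map] at h2
  obtain rfl : 2 = a₀ := (wd_inj h2).1
  obtain ⟨h4, h5⟩ := ch_wd.mp h1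
  obtain rfl : x = p := by
    rcases h4 with h | h | ⟨l, -, -, h⟩
    · omega
    · exact h.1
    · omega
  have h6 : ∀ j < P.k, (u' j = x ∧ a' j = 2) ∨ ∃ l < P.k, y l = u' j ∧ a' j = 8 * l + 3 :=
    fun j hj => (h5 j hj).resolve_left (a _ (mem_wd.mpr (.inr ⟨j, hj, rfl⟩))).ne
  rcases ((good_wd hP).mp c).resolve_left (by omega) with g | g
  · refine wd_congr (fun j hj => ?_) ▸ hu
    rcases h6 j hj with h | ⟨l, -, -, h⟩
    · exact h.1
    · obtain ⟨i, hi, κ, hκ, rfl⟩ := pos_split hj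
      exact absurd (by unfold blk; omega) ((g i hi).kind hκ)
  · refine absurd (wd_congr (fun j hj => ?_) ▸ hu) hw
    have := g.1 j hj
    rcases h6 j hj with h | ⟨l, -, h, h'⟩
    · omega
    · rw [← h, show l = j by omega]

theorem validL_long {w : List ℕ} {t : Set (List ℕ)} (hw : P.k + 1 < w.length) {u : List ℕ}
    (hu : u ∈ t) (h : P.k + 1 < u.length) : ValidL P w t := by
  intro τ h1 h2 v hv
  obtain ⟨v', hv'⟩ := sub_nonempty h1 u
  exact ⟨u, hu, v', hv', by rw [nf_nil (.inr (.inl (hw.trans_le (sub_len h2 hv)))),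
    nf_nil (.inr (.inl (h.trans_le (sub_len h2 hv'))))]⟩

theorem validL_support (hP : WF P) {p : ℕ} {y : ℕ → ℕ} {t : Set (List ℕ)}
    (hp : wd P p (fun _ => p) ∈ t)
    (h : ∀ τ : ℕ → Set (List ℕ), (∀ x, (τ x).Nonempty) → (∀ x, ∀ v ∈ τ x, v ≠ []) →
      ∀ v ∈ Sub τ (wd P p y), (∀ u ∈ t, ∀ v' ∈ Sub τ u, nf P v' ≠ []) → nf P v ≠ []) :
    ValidL P (wd P p y) t := by
  intro τ h1 h2 v hv
  have h3 := sub_len h2 hv
  rw [wd_length] at h3
  rcases nf_cases (P := P) v with ⟨-, a, -⟩ | ⟨a, b, -, d⟩ | ⟨a, -⟩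
  · omega
  · obtain ⟨a₀, a', rfl⟩ := exists_wd b
    have h4 := (ch_wd.mp (ch_of_len h2 hv (by rw [wd_length, wd_length]))).1
    refine ⟨_, hp, wd P a₀ fun _ => a₀, sub_of_ch (ch_wd.mpr ⟨h4, fun _ _ => h4⟩), ?_⟩
    have g1 : Lt P (wd P a₀ fun _ => a₀) := fun c hc => by
      have : c = a₀ := by rcases mem_wd.mp hc with h | ⟨_, _, h⟩; exacts [h, h.symm]
      exact this ▸ a _ (mem_wd.mpr (.inl rfl))
    rw [d, nf_good g1 (wd_length _ _) (good_const hP a₀), wd_map, wd_map]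
    rfl
  · by_contra hc
    push Not at hc
    exact h τ h1 h2 v hv (fun u hu v' hv' e => hc u hu v' hv' (a.trans e.symm)) a

theorem validL_sound (hP : WF P) {p : ℕ} {y : ℕ → ℕ} {t : Set (List ℕ)}
    (hp : wd P p (fun _ => p) ∈ t)
    (h : ∀ f, IsFr P f → NoWalk f → ∀ ψ : ℕ → ℕ, Pad (ψ p) →
      (∀ u, wd P p u ∈ t → GoodA P f fun j => ψ (u j)) → GoodA P f fun j => ψ (y j)) :
    ValidL P (wd P p y) t := by
  classical
  refine validL_support hP hp fun τ h1 h2 v hv hc => ?_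
  have hk := two_le_k (P := P)
  have k1 : ∀ u, wd P p u ∈ t → ∀ z ∈ wd P p u, ∀ s ∈ τ z, s.length = 1 ∧ Lt P s := by
    intro u hu z hz s hs
    obtain ⟨v', a, b, c⟩ := sub_with h1 h2 hz hs
    have d := mt nf_nil (hc _ hu _ a)
    push Not at d
    have := List.length_pos_iff.mpr (h2 z s hs)
    rw [wd_length] at c
    exact ⟨by omega, fun x hx => d.1 x (b x hx)⟩
  have k2 : ∀ z ∈ wd P p y, ∀ s ∈ τ z, s.length = 1 ∧ Lt P s := by
    have := h _ (H_isFr hP 0) (H_noWalk P 0)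
      (fun x => if ∀ s ∈ τ x, s.length = 1 ∧ Lt P s then 1 else 8 * P.k + 3)
      (by rw [if_pos (k1 _ hp p (mem_wd.mpr (.inl rfl)))]; exact .inl rfl)
      fun u hu => good_pads fun j hj => by
        rw [if_pos (k1 _ hu _ (mem_wd.mpr (.inr ⟨j, hj, rfl⟩)))]; exact .inl rfl
    intro z hz
    rcases mem_wd.mp hz with rfl | ⟨j, hj, rfl⟩
    · exact k1 _ hp _ (mem_wd.mpr (.inl rfl))
    · by_contra hn
      have h3 := (this.typed hj (by rw [if_neg hn]; omega)).1 j hj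
      beta_reduce at h3
      rw [if_neg hn] at h3
      omega
  have h3 := ch_of_sub (fun z hz s hs => (k2 z hz s hs).1) hv
  obtain ⟨a₀, a, rfl⟩ := exists_wd (h3.len.trans (wd_length _ _))
  obtain ⟨h4, h5⟩ := ch_wd.mp h3
  intro e
  rcases bad_of_nil (wd_ne _ _) e with b | b | ⟨-, b⟩
  · refine b fun c hc => ?_
    obtain ⟨x, hx, h6⟩ := h3.mem hc
    exact (k2 x hx _ h6).2 c List.mem_cons_self
  · rw [wd_length] at b; omega
  rw [good_wd hP] at b
  push Not at b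
  set φ : ℕ → Set ℕ := fun x => {a | [a] ∈ τ x ∨ ¬ ∃ b, [b] ∈ τ x} with hφ
  have n1 : ∀ x, (φ x).Nonempty := fun x => by
    by_cases hx : ∃ b, [b] ∈ τ x
    · obtain ⟨b, hb⟩ := hx
      exact ⟨b, .inl hb⟩
    · exact ⟨0, .inr hx⟩
  have k3 : ∀ u, wd P p u ∈ t → Th P (H P (a₀ / 4)) φ u := by
    intro u hu c hc'
    have d := mt nf_nil (hc _ hu (wd P a₀ c) (sub_of_ch (ch_wd.mpr ⟨h4, fun j hj =>
      (hc' j hj).resolve_right fun hn => hn ?_⟩)))
    · push Not at d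
      exact ((good_wd hP).mp (d.2.2 (wd_length _ _))).resolve_left (not_not.mpr b.1)
    · obtain ⟨s, hs⟩ := h1 (u j)
      obtain ⟨x, rfl⟩ := List.length_eq_one_iff.mp (k1 u hu _ (mem_wd.mpr (.inr ⟨j, hj, rfl⟩)) s hs).1
      exact ⟨x, hs⟩
  obtain ⟨ψ, m1, m2⟩ := power hP (H_isFr hP (a₀ / 4)) n1
  refine b.2 ((m2 y).mpr (h _ (pw_isFr hP (H_isFr hP _) n1) (pw_noWalk (H_noWalk P _) n1) ψ
    (m1 p fun c hc => ?_) fun u hu => (m2 u).mp (k3 u hu)) a fun j hj => .inl (h5 j hj))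
  have := ((k3 _ hp (fun j => if j = 0 then c else a₀) fun j _ => by
    split_ifs
    · exact hc
    · exact .inl h4).blocks (j := 1) (by omega) (by simp; omega) 0 (by omega)).same
      (κ := 0) (κ' := 1) (by omega) (by have := hP.d; omega)
  simp only [blk, zero_mul, zero_add, if_true, one_ne_zero, if_false] at this
  unfold Same Pad Vx at *
  omega

end Pool.Agent.P.MP_485d6e_al.U
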